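import Pool.Agent.Helper66.MT.Exf
import Pool.Agent.Helper87.NSL.Inv

/-! NSL*: the frozen statement `GAP` of helper87. -/

set_option autoImplicit false

namespace Pool.Agent.Helper66.MT

open Finset Filter Topology Matrix Pool.Agent.Helper69.RK Pool.Agent.Helper31.EC Pool.Agent.Helper31.EC.Sp
open Pool.Agent.Helper40.EL Pool.Agent.Helper89.LX Pool.Agent.Helper84.MT
open Pool.Agent.Helper3.LF (typ_and typ_mono mkFD sp_Sub sp_n lb Mon phi)
open Pool.Agent.Helper59.LF (fadd fadd_leak ladd)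
open Pool.Agent.Helper87.NSL (KnS Inv1 Inv2 TwoJ onG GAP cndR)

noncomputable section

variable {S : Sp}

/-- an admissible form over the trivial label and a variable, as a form of the space -/
theorem adf_onG {ι κ : Type} [Fintype ι] [DecidableEq ι] [Finite κ] (Φ : Gau S ι) {A : κ → Part S}
    (W : ∀ k, Setoid (S.F k).Ω) (g : ∀ k, (S.F k).Ω → Matrix ι ι ℝ)
    (hm : ∀ k ω ω', (S.F k).μ ω ≠ 0 → (S.F k).μ ω' ≠ 0 → (fadd (FLab.triv (S.F k)) (W k)).V ω ω' →
      (S.F k).Z ω ω' → g k ω = g k ω')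
    (h : Φ.Adf A (fun k => mkFD (fadd (FLab.triv (S.F k)) (W k)) (g k) (hm k))) :
    Φ.Adf A (fun k => onG (S.F k) (g k)) := by
  rw [adf_fm] at h ⊢
  obtain ⟨h1, h2⟩ := h
  refine ⟨fun i => ?_, h2⟩
  apply (h1 i).of_le (Eventually.of_forall fun k => FLab.leak_nonneg _ _)
  refine Eventually.of_forall fun k => ?_
  have h3 := FLab.leak_of_coarser (fadd (FLab.triv (S.F k)) (W k)) (Setoid.ker (g k)) (by
    apply fc_le
    intro w w' hw hw' hz e
    exact hm k w w' hw hw' e hz) (A i k)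
  exact h3

/-- the partitions of the conditions -/
def cndBR {M : ℕ} {E : ℕ → ℕ} {ι : Type} (s : MSys S M E ι) (R : ∀ k, Setoid (S.F k).Ω) (c : ℝ) :
    Option ι → ∀ k, Setoid (S.F k).Ω
  | none => R
  | some i => fun k => (s.lf i).La k ⊓ Setoid.ker ((s.lf i).Y.cellv c k)

theorem cndBR_eq {M : ℕ} {E : ℕ → ℕ} {ι : Type} (s : MSys S M E ι) (R : ∀ k, Setoid (S.F k).Ω) (c : ℝ) :
    (fun i k => fc (cndBR s R c i k)) = cndR s R c := by
  funext i k
  cases i <;> rfl

/-- independence of conditions over the trivial label -/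
def Iv (B1 B2 B : ∀ k, Setoid (S.F k).Ω) : Prop := Nul S (fun k => I (fc (B1 k)) (fc (B2 k)) (fc (B k)))

theorem Iv_triv {B1 B2 B : ∀ k, Setoid (S.F k).Ω} (h : Iv B1 B2 B) : Nul S (fun k =>
    I ((FLab.triv (S.F k)).p.map (fc (B1 k))) ((FLab.triv (S.F k)).p.map (fc (B2 k)))
      ((FLab.triv (S.F k)).v ⊔ (FLab.triv (S.F k)).p.map (fc (B k)))) := by
  have h1 : (fun k => I ((FLab.triv (S.F k)).p.map (fc (B1 k))) ((FLab.triv (S.F k)).p.map (fc (B2 k)))
      ((FLab.triv (S.F k)).v ⊔ (FLab.triv (S.F k)).p.map (fc (B k)))) =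
      fun k => I (fc (B1 k)) (fc (B2 k)) (fc (B k)) := by
    funext k
    have h2 : (FLab.triv (S.F k)).v ⊔ (FLab.triv (S.F k)).p.map (fc (B k)) = fc (B k) := by
      have h3 : (FLab.triv (S.F k)).v = ⊥ := le_antisymm le_rfl bot_le
      rw [h3, bot_sup_eq]
      rfl
    rw [h2]
    rfl
  rw [h1]
  exact h

theorem DMf_triv {κ : Type} (A : κ → Part S) : Lab.DMf (S := S) (fun k => FLab.triv (S.F k)) A := by
  intro i
  show Tendsto _ _ _
  have h1 : (fun k => (FLab.triv (S.F k)).leak (A i k) / (S.F k).n) = fun _ => (0 : ℝ) := by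
    funext k
    rw [FLab.triv_leak, zero_div]
  rw [h1]
  exact tendsto_const_nhds

/-- **GAP** -/
theorem gap (M D : ℕ) : GAP M D := by
  classical
  refine ⟨2 * cR1 (Mon M D) + 2, by positivity, ?_⟩
  intro S E ι hfin s R c v v' e A J J' hR _ _ he hvv hI1 hI2 hT
  have hn := fun k => (S.F k).pos
  have hE1 : ∀ k, (1 : ℝ) ≤ 2 ^ (e * (S.F k).n) := fun k => Real.one_le_rpow (by norm_num) (mul_pos he (hn k)).le
  have hE2 : ∀ k, (1 : ℝ) ≤ 2 ^ (2 * e * (S.F k).n) := fun k => Real.one_le_rpow (by norm_num)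
    (by have := mul_pos he (hn k); nlinarith)
  have hG : ∀ᶠ k in UF, ∀ ω, (S.F k).μ ω ≠ 0 → Cpd ((gaq s.Q D).cp k) (J k ω) := by
    filter_upwards [hT.cp] with k hk ω hω
    exact (hk ω hω).1
  have hφ : Sp.Typ (S := Lab.sp (S := S) (fun k => FLab.triv (S.F k))) (fun k (ω : (S.F k).Ω) =>
      A k ω → phi (S.dl 1 k) (J k ω) (s.Q.v k ω) ≤ 2 ^ (e * (S.F k).n)) := by
    refine typ_mono (S := Lab.sp (S := S) (fun k => FLab.triv (S.F k))) typ_true ?_
    filter_upwards [hT.ph] with k hk ω hω _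
    exact hk ω hω
  have hA : ∀ i, (i = some v ∨ i = some v') → ∀ᶠ k in UF, ∀ ω ω', (S.F k).μ ω ≠ 0 → (S.F k).μ ω' ≠ 0 → A k ω →
      A k ω' → (FLab.triv (S.F k)).V ω ω' → (S.F k).Z ω ω' → cndBR s R c i k ω ω' →
      ∀ z, qf (J k ω) z ≤ 2 ^ (2 * e * (S.F k).n) * qf (J k ω') z := by
    rintro i (hi | hi)
    · subst hi
      filter_upwards [hT.kn, hT.cp] with k a b ω ω' hω hω' _ _ _ hZ hb z
      rw [a ω ω' hω hω' hZ hb]
      have h3 : 0 ≤ qf (J k ω') z := (b ω' hω').1.psd.2 z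
      have h4 := hE2 k
      nlinarith
    · subst hi
      filter_upwards [hT.kn', hT.nr] with k a b ω ω' hω hω' hA hA' _ hZ hb z
      have h3 := (b ω hω hA).1 z
      have h4 := (b ω' hω' hA').2 z
      rw [a ω ω' hω hω' hZ hb] at h3
      have h5 : (0 : ℝ) < 2 ^ (e * (S.F k).n) := by positivity
      have h6 := mul_le_mul_of_nonneg_left h4 h5.le
      have e1 : (2 : ℝ) ^ (2 * e * (S.F k).n) = 2 ^ (e * (S.F k).n) * 2 ^ (e * (S.F k).n) := by
        rw [← Real.rpow_add (by norm_num)]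
        congr 1
        ring
      rw [e1, mul_assoc]
      exact h3.trans h6
  have hgd : ∀ i, Gd (fun i => i = some v ∨ i = some v')
      (fun i1 i2 i => Iv (cndBR s R c i1) (cndBR s R c i2) (cndBR s R c i)) i := by
    have hv : Gd (fun i => i = some v ∨ i = some v')
      (fun i1 i2 i => Iv (cndBR s R c i1) (cndBR s R c i2) (cndBR s R c i)) (some v) := Gd.base _ (Or.inl rfl)
    have hv' : Gd (fun i => i = some v ∨ i = some v')
      (fun i1 i2 i => Iv (cndBR s R c i1) (cndBR s R c i2) (cndBR s R c i)) (some v') := Gd.base _ (Or.inr rfl)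
    have h2 : Iv (cndBR s R c (some v)) (cndBR s R c (some v')) (cndBR s R c none) := hI2
    have hno := Gd.step none (some v) (some v') hv hv' h2
    intro i
    rcases i with _ | i
    · exact hno
    · by_cases h3 : i = v
      · rw [h3]
        exact hv
      · by_cases h4 : i = v'
        · rw [h4]
          exact hv'
        · have h5 : Iv (cndBR s R c (some v)) (cndBR s R c none) (cndBR s R c (some i)) := hI1 i h3 h4
          exact Gd.step (some i) (some v) none hv hno h5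
  have hgd' : ∀ i, Gd (fun i => i = some v ∨ i = some v') (fun i1 i2 i => Nul S (fun k =>
      I ((FLab.triv (S.F k)).p.map (fc (cndBR s R c i1 k))) ((FLab.triv (S.F k)).p.map (fc (cndBR s R c i2 k)))
      ((FLab.triv (S.F k)).v ⊔ (FLab.triv (S.F k)).p.map (fc (cndBR s R c i k))))) i := by
    intro i
    induction hgd i with
    | base i h => exact Gd.base i h
    | step i i1 i2 _ _ h3 ih1 ih2 => exact Gd.step i i1 i2 ih1 ih2 (Iv_triv h3)
  obtain ⟨W, g, hm, h1, h2⟩ := exact_form (gaq s.Q D) (fun k ω A B _ _ h => Pool.Agent.Helper3.LF.phi_mono _ h _)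
    (fun k ω c A => Pool.Agent.Helper3.LF.phi_smul _ _ _ _) (cndBR s R c) (DMf_triv _) J hG A
    (fun k => 2 ^ (e * (S.F k).n)) hE1 hφ (fun k => 2 ^ (2 * e * (S.F k).n)) hE2 _ hA hgd'
  rw [cndBR_eq] at h1
  have h5 := adf_onG (gaq s.Q D) W g hm h1
  refine ⟨g, h5, ?_⟩
  filter_upwards [h2, (adf_fm.mp h5).2 1 one_pos,
    (S.Sub_const (zero_le_one.trans (cR0_one (Mon M D)))).eventually_le he] with k a b d ω hω hA z
  have h6 := a ω hω hA z
  have h7 : 0 ≤ qf (g k ω) z := (b.1 ω hω).1.psd.2 z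
  refine h6.trans ?_
  apply mul_le_mul_of_nonneg_right _ h7
  have hc : cR0 (Mon M D) ≤ 2 ^ (e * (S.F k).n) := by linarith
  have e1 : (2 : ℝ) ^ ((2 * (cR1 (Mon M D) : ℝ) + 2) * e * (S.F k).n) =
      2 ^ (e * (S.F k).n) * (2 ^ (2 * e * (S.F k).n)) ^ (cR1 (Mon M D)) * 2 ^ (e * (S.F k).n) := by
    rw [← Real.rpow_natCast, ← Real.rpow_mul (by norm_num), ← Real.rpow_add (by norm_num),
      ← Real.rpow_add (by norm_num)]
    congr 1
    ring
  rw [e1]
  apply mul_le_mul_of_nonneg_right _ (by positivity)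
  exact mul_le_mul_of_nonneg_right hc (by positivity)

end

end Pool.Agent.Helper66.MT
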