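import Pool.Agent.Helper89.MG.Rnd
import Pool.Agent.Helper3.LF.Adm
import Pool.Agent.Helper59.LF.Add

/-! MULTI-TYPE LAYER: FORM LABELS. A form-valued variable which is comparable up to tame factors on the typical part of
the atoms of a label and of each condition gives an admissible form over a larger label. -/

set_option autoImplicit false

namespace Pool.Agent.Helper66.MT

open Finset Filter Topology Matrix Pool.Agent.Helper69.RK Pool.Agent.Helper31.EC Pool.Agent.Helper31.EC.Sp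
open Pool.Agent.Helper40.EL Pool.Agent.Helper89.LX
open Pool.Agent.Helper95.LF (PdM NearM round_mat values_card)
open Pool.Agent.Helper3.LF (typ_and typ_mono mkFD sp_Sub sp_n typ_of_sub_le Sub_powN lb)
open Pool.Agent.Helper59.LF (fadd fadd_leak ladd)

noncomputable section

variable {S : Sp} {ι κ : Type} [Fintype ι] [DecidableEq ι]

/-- labels without leak, refined by a variable which is small over each condition -/
theorem DMf_ladd {l : Lab S} {A : κ → Part S} (hl : l.DMf A) (W : ∀ k, Setoid (l k).T.Ω)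
    (hW : ∀ i, Nul S (fun k => h (fc (W k)) ((l k).v ⊔ (l k).p.map (A i k)))) : (ladd l W).DMf A := by
  intro i
  apply ((hl i).add (hW i)).of_le (Eventually.of_forall fun k => (ladd l W k).leak_nonneg _)
  exact Eventually.of_forall fun k => fadd_leak (l k) (W k) (A i k)

/-- admissible sequences are labels without leak with forms which are small -/
theorem adf_fm [Finite κ] {Φ : Gau S ι} {A : κ → Part S} {x : ∀ k, FD (S.F k) ι} :
    Φ.Adf A x ↔ Lab.DMf (fun k => (x k).l) A ∧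
    ∀ η : ℝ, 0 < η → ∀ᶠ k in UF, (∀ ω, (x k).l.T.μ ω ≠ 0 → Cpd (Φ.cp k) ((x k).g ω) ∧ Cpd (Φ.cp k) ((x k).g' ω)) ∧
      (x k).l.T.pb (fun ω => ¬ Φ.φ k ((x k).l.p.π ω) ((x k).g ω) ≤ 2 ^ (η * (S.F k).n)) ≤ η ∧
      (x k).l.T.pb (fun ω => ¬ Φ.φ k ((x k).l.p.π ω) ((x k).g' ω) ≤ 2 ^ (η * (S.F k).n)) ≤ η := by
  constructor
  · intro hx
    refine ⟨Gau.Adf.dm Φ hx, fun η hη => ?_⟩
    filter_upwards [hx η hη] with k hk using hk.2
  · rintro ⟨h1, h2⟩ η hη
    filter_upwards [h2 η hη, leak_evf h1 hη] with k a b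
    exact ⟨b, a⟩

/-- admissibility from typical bounds -/
theorem adf_mk [Finite κ] {Φ : Gau S ι} {A : κ → Part S} (x : ∀ k, FD (S.F k) ι) (hl : (lb x).DMf A)
    (hg : ∀ k, (x k).g' = (x k).g) (hc : ∀ᶠ k in UF, ∀ ω, (x k).l.T.μ ω ≠ 0 → Cpd (Φ.cp k) ((x k).g ω))
    (K : ℕ → ℝ) (hK : S.Sub K) (hT : Sp.Typ (S := (lb x).sp)
      (fun k (ω : (x k).l.T.Ω) => Φ.φ k ((x k).l.p.π ω) ((x k).g ω) ≤ K k)) : Φ.Adf A x := by
  rw [adf_fm]
  refine ⟨hl, fun η hη => ?_⟩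
  have h3 : Tendsto (fun k => (x k).l.T.pb (fun ω => ¬ Φ.φ k ((x k).l.p.π ω) ((x k).g ω) ≤
      2 ^ (η * ((lb x).sp.F k).n))) UF (𝓝 0) := typ_of_sub_le ((sp_Sub (lb x)).mpr hK) hT η hη
  filter_upwards [hc, h3.eventually (gt_mem_nhds hη)] with k c d
  rw [sp_n] at d
  exact ⟨fun ω hω => ⟨c ω hω, by rw [hg]; exact c ω hω⟩, d.le, by rw [hg]; exact d.le⟩

/-- rounded forms are small over conditions on which the forms are comparable -/
theorem nul_round (Φ : Gau S ι) {l : Lab S} (B : ∀ k, Setoid (S.F k).Ω) (G : ∀ k, (l k).T.Ω → Matrix ι ι ℝ)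
    (hG : ∀ᶠ k in UF, ∀ ω, (l k).T.μ ω ≠ 0 → Cpd (Φ.cp k) (G k ω)) (N : ℕ) (hN : 1 ≤ N) (L : ℕ → ℝ)
    (hL1 : ∀ k, 1 ≤ L k) (Q : ℕ → Matrix ι ι ℝ → Matrix ι ι ℝ)
    (hQ : ∀ k, ∀ A, PdM A → ∃ X : Finset (Matrix ι ι ℝ), X.card ≤ N ∧ ∀ A', PdM A' → NearM (L k) A A' → Q k A' ∈ X)
    (E : ∀ k, (l k).T.Ω → Prop) (hE : Sp.Typ (S := l.sp) E)
    (hn : ∀ᶠ k in UF, ∀ ω ω', (l k).T.μ ω ≠ 0 → (l k).T.μ ω' ≠ 0 → E k ω → E k ω' →
      (l k).V ω ω' → (l k).T.Z ω ω' → B k ((l k).p.π ω) ((l k).p.π ω') → NearM (L k) (G k ω) (G k ω')) :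
    Nul S (fun k => h (fc (Setoid.ker fun ω => Q k (G k ω))) ((l k).v ⊔ (l k).p.map (fc (B k)))) := by
  classical
  obtain ⟨C, hC0, hC⟩ := Φ.card_cap
  have hfin : ∀ᶠ k in UF, h (fc (Setoid.ker fun ω => Q k (G k ω))) ((l k).v ⊔ (l k).p.map (fc (B k))) ≤
      (Real.logb 2 N + (l k).T.pb (fun ω => ¬ E k ω) * ((Real.logb 2 N + 2 * C) + 2 * C * (S.F k).n) + 1) := by
    filter_upwards [hG, hn] with k hk hk2
    obtain ⟨X, hX, hX'⟩ := hC (L k) (hL1 k) N (Q k) (hQ k) k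
    have hM1 : (1 : ℝ) ≤ N * Real.exp (C * ((S.F k).n + 1)) := by
      have h1 : (1 : ℝ) ≤ N := by exact_mod_cast hN
      have h2 : (1 : ℝ) ≤ Real.exp (C * ((S.F k).n + 1)) := Real.one_le_exp (by
        have := (S.F k).pos
        positivity)
      nlinarith
    set s : Setoid (l k).T.Ω := ((l k).V ⊓ Setoid.comap (l k).p.π (B k)) ⊓ (l k).T.Z with hs
    -- the values determined by the atom
    have hval : ∀ a : Quotient s, ∃ f : Fin N → Matrix ι ι ℝ, ∀ ω, (l k).T.μ ω ≠ 0 → E k ω →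
        Quotient.mk s ω = a → ∃ i, Q k (G k ω) = f i := by
      intro a
      by_cases hp : ∃ ω, (l k).T.μ ω ≠ 0 ∧ E k ω ∧ Quotient.mk s ω = a
      · obtain ⟨ω0, h0, h0E, h0a⟩ := hp
        obtain ⟨Z, hZ, hZ'⟩ := hQ k _ (hk ω0 h0).pdM
        obtain ⟨f, hf⟩ := enum_fin Z N hZ
        refine ⟨f, fun ω hω hEω hωa => hf _ (hZ' _ (hk ω hω).pdM ?_)⟩
        have h1 : s ω0 ω := Quotient.exact (h0a.trans hωa.symm)
        exact hk2 ω0 ω h0 hω h0E hEω h1.1.1 h1.2 h1.1.2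
      · exact ⟨fun _ => 1, fun ω hω hEω hωa => absurd ⟨ω, hω, hEω, hωa⟩ hp⟩
    choose f hf using hval
    have h1 := h_few_typ (F := (l k).T) (E k) (fun ω => Q k (G k ω)) (fun ω => Quotient.mk s ω) N hN f
      (fun ω hω hEω => hf _ ω hω hEω rfl)
      (N * Real.exp (C * ((S.F k).n + 1))) hM1 X hX (fun ω hω => hX' _ (hk ω hω))
    have h0 : h (fc (Setoid.ker fun ω => Q k (G k ω)) : FL (l k).T) (fc (Setoid.ker fun ω => Quotient.mk s ω)) =
        h (fc (Setoid.ker fun ω => Q k (G k ω))) ((l k).v ⊔ (l k).p.map (fc (B k))) := by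
      have e1 : (l k).v ⊔ (l k).p.map (fc (B k)) = fc ((l k).V ⊓ Setoid.comap (l k).p.π (B k)) := rfl
      have e2 : Setoid.ker (fun ω => Quotient.mk s ω) = s := by
        ext ω ω'
        constructor
        · intro h
          exact Quotient.exact h
        · intro h
          exact Quotient.sound h
      rw [e1, h_fc, h_fc, e2, hs, inf_assoc, inf_idem]
    rw [h0] at h1
    have h2 : Real.logb 2 (N * Real.exp (C * ((S.F k).n + 1))) ≤ (Real.logb 2 N + 2 * C) + 2 * C * (S.F k).n := by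
      have hN0 : (0 : ℝ) < N := by exact_mod_cast hN
      rw [Real.logb_mul hN0.ne' (Real.exp_pos _).ne']
      have h3 : Real.logb 2 (Real.exp (C * ((S.F k).n + 1))) = C * ((S.F k).n + 1) / Real.log 2 := by
        unfold Real.logb
        rw [Real.log_exp]
      rw [h3]
      have h4 : 0 ≤ C * ((S.F k).n + 1) := by
        have := (S.F k).pos
        positivity
      have h5 : C * ((S.F k).n + 1) / Real.log 2 ≤ C * ((S.F k).n + 1) * 2 := by
        rw [div_le_iff₀ (Real.log_pos (by norm_num))]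
        have h6 : (1 : ℝ) / 2 < Real.log 2 := by
          have := Real.log_two_gt_d9
          linarith
        nlinarith
      linarith
    refine h1.trans ?_
    have := mul_le_mul_of_nonneg_left h2 ((l k).T.pb_nonneg (fun ω => ¬ E k ω))
    linarith
  have t1 : Tendsto (fun k => (l k).T.pb (fun ω => ¬ E k ω)) UF (𝓝 0) := hE
  have hR : Nul S (fun k => (Real.logb 2 N + (l k).T.pb (fun ω => ¬ E k ω) *
        ((Real.logb 2 N + 2 * C) + 2 * C * (S.F k).n) + 1)) := by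
    have a1 : Nul S (fun _ => Real.logb 2 N + 1) := Nul.const S _
    have a2 : Nul S (fun k => (l k).T.pb (fun ω => ¬ E k ω) * ((Real.logb 2 N + 2 * C) + 2 * C * (S.F k).n)) := by
      have a3 : Tendsto (fun k => (l k).T.pb (fun ω => ¬ E k ω) * ((Real.logb 2 N + 2 * C) / (S.F k).n + 2 * C)) UF
          (𝓝 (0 * (0 + 2 * C))) := t1.mul ((S.div_n_tendsto _).add tendsto_const_nhds)
      rw [zero_mul] at a3
      refine a3.congr fun k => ?_
      have := (S.F k).pos.ne'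
      field_simp
    have a4 := a1.add a2
    refine a4.congr fun k => ?_
    congr 1
    ring
  exact hR.of_le (Eventually.of_forall fun k => h_nonneg _ _) hfin

open Classical in
/-- a form, if it is below the cap -/
def capg (c : ℝ) (A : Matrix ι ι ℝ) : Matrix ι ι ℝ := if Cpd c A then A else 1

theorem capg_Cpd {c : ℝ} (hc : 1 ≤ c) (A : Matrix ι ι ℝ) : Cpd c (capg c A) := by
  unfold capg
  split_ifs with h
  · exact h
  · exact Cpd_one hc

theorem capg_eq {c : ℝ} {A : Matrix ι ι ℝ} (h : Cpd c A) : capg c A = A := by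
  unfold capg
  rw [if_pos h]

/-- **FORM LABEL** -/
theorem form_label [Finite κ] (Φ : Gau S ι) (hmono : ∀ k ω, ∀ A B : Matrix ι ι ℝ, Psd A → Psd B →
      (∀ v, qf A v ≤ qf B v) → Φ.φ k ω A ≤ Φ.φ k ω B) (hsmul : ∀ k ω (c : ℝ), ∀ A : Matrix ι ι ℝ,
      Φ.φ k ω (c • A) = c * Φ.φ k ω A) (B : κ → ∀ k, Setoid (S.F k).Ω) {l : Lab S}
    (hl : l.DMf (fun i k => fc (B i k))) (G : ∀ k, (l k).T.Ω → Matrix ι ι ℝ)
    (hG : ∀ᶠ k in UF, ∀ ω, (l k).T.μ ω ≠ 0 → Cpd (Φ.cp k) (G k ω))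
    {K : ℕ → ℝ} (hK : S.Sub K) (hφ : Sp.Typ (S := l.sp) (fun k (ω : (l k).T.Ω) => Φ.φ k ((l k).p.π ω) (G k ω) ≤ K k))
    (E : ∀ k, (l k).T.Ω → Prop) (hE : Sp.Typ (S := l.sp) E)
    (hn : ∀ i, ∀ᶠ k in UF, ∀ ω ω', (l k).T.μ ω ≠ 0 → (l k).T.μ ω' ≠ 0 → E k ω → E k ω' →
      (l k).V ω ω' → (l k).T.Z ω ω' → B i k ((l k).p.π ω) ((l k).p.π ω') →
      ∀ v, qf (G k ω) v ≤ K k * qf (G k ω') v) :
    ∃ (W : ∀ k, Setoid (l k).T.Ω) (g : ∀ k, (l k).T.Ω → Matrix ι ι ℝ)
      (hm : ∀ k ω ω', (l k).T.μ ω ≠ 0 → (l k).T.μ ω' ≠ 0 → (fadd (l k) (W k)).V ω ω' → (l k).T.Z ω ω' →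
        g k ω = g k ω'),
      Φ.Adf (fun i k => fc (B i k)) (fun k => mkFD (fadd (l k) (W k)) (g k) (hm k)) ∧
      ∃ K' : ℕ → ℝ, S.Sub K' ∧ Sp.Typ (S := l.sp) (fun k (ω : (l k).T.Ω) =>
        (∀ v, qf (G k ω) v ≤ K' k * qf (g k ω) v) ∧ ∀ v, qf (g k ω) v ≤ K' k * qf (G k ω) v) := by
  classical
  obtain ⟨C, N, hC1, hC⟩ := round_mat ι
  set L : ℕ → ℝ := fun k => Real.log (|K k| + 3) with hL
  have hL3 : ∀ k, (3 : ℝ) ≤ |K k| + 3 := fun k => by linarith [abs_nonneg (K k)]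
  have hL1 : ∀ k, 1 ≤ L k := by
    intro k
    rw [hL, Real.le_log_iff_exp_le (by linarith [hL3 k])]
    have := Real.exp_one_lt_d9
    linarith [hL3 k]
  choose Q hQ1 hQ2 using fun k => hC (L k) (hL1 k)
  have hN : 1 ≤ N := by
    obtain ⟨X, hX, hX'⟩ := hQ2 0 1 ⟨Matrix.isSymm_one, fun x hx => by
      rw [Matrix.one_mulVec]; exact dot_self_pos hx⟩
    have h1 := hX' 1 ⟨Matrix.isSymm_one, fun x hx => by
      rw [Matrix.one_mulVec]; exact dot_self_pos hx⟩ ⟨fun x => by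
        have h2 : 1 ≤ Real.exp (L 0) := Real.one_le_exp (by linarith [hL1 0])
        rw [Matrix.one_mulVec]
        nlinarith [dot_self_nonneg x], fun x => by
        have h2 : 1 ≤ Real.exp (L 0) := Real.one_le_exp (by linarith [hL1 0])
        rw [Matrix.one_mulVec]
        nlinarith [dot_self_nonneg x]⟩
    exact (Finset.card_pos.mpr ⟨_, h1⟩).trans_le hX
  have hexpL : ∀ k, Real.exp (L k) = |K k| + 3 := fun k => Real.exp_log (by linarith [hL3 k])
  -- the factor of the rounding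
  set cN : ℕ := ⌈C⌉₊ with hcN
  set e : ℕ → ℝ := fun k => (|K k| + 3) ^ cN with he
  have he1 : ∀ k, 1 ≤ e k := fun k => one_le_pow₀ (by linarith [hL3 k])
  have heC : ∀ k, Real.exp (C * L k) ≤ e k := by
    intro k
    have h1 : C * L k ≤ cN * L k := mul_le_mul_of_nonneg_right (Nat.le_ceil C) (by linarith [hL1 k])
    refine (Real.exp_le_exp.mpr h1).trans (le_of_eq ?_)
    rw [Real.exp_nat_mul, hexpL]
  have heS : S.Sub e := by
    have h1 : S.Sub (fun k => |K k| + 3) := by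
      refine Sp.Sub.mono (hK.add (S.Sub_const (K := 3) (by norm_num))) (Eventually.of_forall fun k => by
        linarith [hL3 k]) ?_
      filter_upwards [hK.1] with k hk
      rw [abs_of_nonneg hk]
    exact Sub_powN h1 cN
  -- the forms
  set g : ∀ k, (l k).T.Ω → Matrix ι ι ℝ := fun k ω => capg (Φ.cp k) (e k • Q k (G k ω)) with hg
  set W : ∀ k, Setoid (l k).T.Ω := fun k => Setoid.ker fun ω => Q k (G k ω) with hW
  have hm : ∀ k ω ω', (l k).T.μ ω ≠ 0 → (l k).T.μ ω' ≠ 0 → (fadd (l k) (W k)).V ω ω' → (l k).T.Z ω ω' →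
      g k ω = g k ω' := by
    intro k ω ω' _ _ h3 _
    have h4 : Q k (G k ω) = Q k (G k ω') := h3.2
    simp only [hg, h4]
  have qsm : ∀ (c : ℝ) (A : Matrix ι ι ℝ) (v : ι → ℝ), qf (c • A) v = c * qf A v := by
    intro c A v
    unfold qf
    rw [Matrix.smul_mulVec, dotProduct_smul, smul_eq_mul]
  -- comparison of the rounding
  have hcmp : ∀ᶠ k in UF, ∀ ω, (l k).T.μ ω ≠ 0 → Psd (e k • Q k (G k ω)) ∧
      (∀ v, qf (G k ω) v ≤ qf (e k • Q k (G k ω)) v) ∧ ∀ v, qf (e k • Q k (G k ω)) v ≤ e k ^ 2 * qf (G k ω) v := by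
    filter_upwards [hG] with k hk ω hω
    obtain ⟨p1, p2, p3⟩ := hQ1 k (G k ω) (hk ω hω).pdM
    have he0 := he1 k
    have hnn : ∀ v, 0 ≤ qf (Q k (G k ω)) v := by
      intro v
      by_cases hv : v = 0
      · subst hv
        unfold qf
        simp
      · exact (p1.2 v hv).le
    refine ⟨⟨p1.1.smul _, fun v => ?_⟩, fun v => ?_, fun v => ?_⟩
    · rw [qsm]
      exact mul_nonneg (by linarith) (hnn v)
    · rw [qsm]
      exact (p2 v).trans (mul_le_mul_of_nonneg_right (heC k) (hnn v))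
    · rw [qsm, pow_two, mul_assoc]
      apply mul_le_mul_of_nonneg_left _ (by linarith)
      exact (p3 v).trans (mul_le_mul_of_nonneg_right (heC k) ((hk ω hω).psd.2 v))
  have hφ2 : Sp.Typ (S := l.sp) (fun k (ω : (l k).T.Ω) => Φ.φ k ((l k).p.π ω) (e k • Q k (G k ω)) ≤
      e k ^ 2 * K k) := by
    refine typ_mono hφ ?_
    filter_upwards [hcmp, hG] with k a b ω hω h1
    obtain ⟨a1, a2, a3⟩ := a ω hω
    have he0 := he1 k
    have h2 := hmono k ((l k).p.π ω) (e k • Q k (G k ω)) (e k ^ 2 • G k ω) a1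
      ⟨(b ω hω).1.smul _, fun v => by rw [qsm]; exact mul_nonneg (by positivity) ((b ω hω).psd.2 v)⟩
      (fun v => by rw [qsm (e k ^ 2)]; exact a3 v)
    rw [hsmul k _ (e k ^ 2)] at h2
    exact h2.trans (mul_le_mul_of_nonneg_left h1 (by positivity))
  have hK2 : S.Sub (fun k => e k ^ 2 * K k) := (Sub_powN heS 2).mul hK
  -- the cap is not reached typically
  have hcap : Sp.Typ (S := l.sp) (fun k (ω : (l k).T.Ω) => Cpd (Φ.cp k) (e k • Q k (G k ω))) := by
    refine typ_mono hφ2 ?_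
    filter_upwards [hcmp, hG, Φ.cap, hK2.eventually_le one_pos] with k a b c d ω hω h1
    obtain ⟨a1, a2, a3⟩ := a ω hω
    refine ⟨a1.1, fun v => ((b ω hω).2.1 v).trans (a2 v), fun v => ?_⟩
    have hpd : PdM (e k • Q k (G k ω)) := ⟨a1.1, fun v hv =>
      lt_of_lt_of_le (dot_self_pos hv) (((b ω hω).2.1 v).trans (a2 v))⟩
    refine (c ((l k).p.π ω) ((l k).p.supp ω hω) _ hpd v).trans ?_
    apply mul_le_mul_of_nonneg_right _ (dot_self_nonneg v)
    unfold Gau.cp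
    rw [add_mul, Real.rpow_add (by norm_num)]
    apply mul_le_mul_of_nonneg_left _ (by positivity)
    linarith
  obtain ⟨K1, hK1, hone⟩ := Φ.one
  refine ⟨W, g, hm, ?_, fun k => e k ^ 2, Sub_powN heS 2, ?_⟩
  · apply adf_mk (Φ := Φ) (fun k => mkFD (fadd (l k) (W k)) (g k) (hm k)) _ (fun k => rfl)
      (Eventually.of_forall fun k ω _ => capg_Cpd (Φ.one_le_cp k) _) (fun k => e k ^ 2 * K k + K1 k) (hK2.add hK1)
    · refine typ_mono (S := l.sp) hφ2 ?_
      filter_upwards [hone, hK1.1, hK.1] with k a b c ω hω h1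
      have a1 := a _ ((l k).p.supp ω hω)
      have he0 := he1 k
      have h2 : 0 ≤ e k ^ 2 * K k := by positivity
      show Φ.φ k ((l k).p.π ω) (capg (Φ.cp k) (e k • Q k (G k ω))) ≤ e k ^ 2 * K k + K1 k
      unfold capg
      split_ifs with h3
      · linarith
      · linarith
    · apply DMf_ladd hl W
      intro i
      apply nul_round Φ (B i) G hG N hN L hL1 Q hQ2 E hE
      filter_upwards [hn i, hG] with k a b ω ω' h1 h2 h3 h4 h5 h6 h7
      have a1 := a ω ω' h1 h2 h3 h4 h5 h6 h7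
      have a2 := a ω' ω h2 h1 h4 h3 ((l k).V.symm' h5) ((l k).T.Z.symm' h6) ((B i k).symm' h7)
      have hKe : K k ≤ Real.exp (L k) := by
        rw [hexpL]
        linarith [le_abs_self (K k)]
      exact ⟨fun v => (a1 v).trans (mul_le_mul_of_nonneg_right hKe ((b ω' h2).psd.2 v)),
        fun v => (a2 v).trans (mul_le_mul_of_nonneg_right hKe ((b ω h1).psd.2 v))⟩
  · refine typ_mono hcap ?_
    filter_upwards [hcmp, hG] with k a b ω hω h1
    obtain ⟨a1, a2, a3⟩ := a ω hω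
    have he0 := he1 k
    show (∀ v, qf (G k ω) v ≤ e k ^ 2 * qf (capg (Φ.cp k) (e k • Q k (G k ω))) v) ∧
      ∀ v, qf (capg (Φ.cp k) (e k • Q k (G k ω))) v ≤ e k ^ 2 * qf (G k ω) v
    rw [capg_eq h1]
    refine ⟨fun v => (a2 v).trans ?_, a3⟩
    have h2 : 1 ≤ e k ^ 2 := one_le_pow₀ he0
    nlinarith [a1.2 v]

end

end Pool.Agent.Helper66.MT
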