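import Pool.Agent.Helper66.MT.Nq
import Pool.Agent.Helper89.MG.Typf

/-! MULTI-TYPE LAYER: variation of the size of a functional on a smaller window, and comparison of the dual forms. -/

set_option autoImplicit false

namespace Pool.Agent.Helper66.MT

open Finset Filter Topology Matrix Pool.Agent.Helper69.RK Pool.Agent.Helper31.EC Pool.Agent.Helper31.EC.Sp
open Pool.Agent.Helper40.EL Pool.Agent.Helper84.MT
open Pool.Agent.Helper89.LX (qf Psd Cpd dot_self_nonneg cM cM_one cM_Sub ph_nearM eval_nodp)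
open Pool.Agent.Helper3.LF (Mon pol vv dd ph ga phi gam nodp nod ph_nonneg phi_nonneg eval_pol nn nn_one card_nodes
  pol_deg)
open Pool.Agent.Helper95.LF (PdM)

noncomputable section

/-- variation on a smaller window -/
theorem win_var {e : ℕ} {Y Y' : Fin e → ℝ} {W w K A : ℝ} (hW1 : W ≤ 1) (hw : 0 < w) (hwW : w ≤ W) (hK : 0 ≤ K)
    {g : (Fin e → ℝ) → ℝ}
    (hseg : ∀ y z : Fin e → ℝ, (∀ i, |y i - Y i| ≤ 1) → (∀ i, |z i - Y i| ≤ 1) →
      BmS K (fun u => g (fun i => y i + u * (z i - y i))))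
    (hA : ∀ y : Fin e → ℝ, (∀ i, |y i - Y i| < W) → |g y| ≤ A) (hY : ∀ i, |Y' i - Y i| < w) :
    |g Y - g Y'| ≤ (K + 2) * (2 * w / W) * A := by
  have hW0 : 0 < W := hw.trans_le hwW
  have hA0 : 0 ≤ A := (abs_nonneg _).trans (hA Y (fun i => by rw [sub_self, abs_zero]; exact hW0))
  by_cases h1 : 2 * w ≤ W
  · set z : Fin e → ℝ := fun i => Y i + (W / (2 * w)) * (Y' i - Y i) with hz
    have hzY : ∀ u ∈ Set.Icc (0 : ℝ) 1, ∀ i, |Y i + u * (z i - Y i) - Y i| < W := by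
      intro u hu i
      have e1 : Y i + u * (z i - Y i) - Y i = u * (W / (2 * w) * (Y' i - Y i)) := by
        rw [hz]
        ring
      rw [e1, abs_mul, abs_mul, abs_of_nonneg hu.1, abs_of_pos (by positivity)]
      have h2 : W / (2 * w) * |Y' i - Y i| ≤ W / (2 * w) * w := mul_le_mul_of_nonneg_left (hY i).le (by positivity)
      have h3 : W / (2 * w) * w = W / 2 := by
        field_simp
      have h4 : 0 ≤ W / (2 * w) * |Y' i - Y i| := by positivity
      have h5 : u * (W / (2 * w) * |Y' i - Y i|) ≤ 1 * (W / (2 * w) * |Y' i - Y i|) :=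
        mul_le_mul_of_nonneg_right hu.2 h4
      linarith
    have h2 := hseg Y z (fun i => by rw [sub_self, abs_zero]; exact zero_le_one) (fun i => by
      have h3 := hzY 1 ⟨zero_le_one, le_rfl⟩ i
      rw [one_mul, add_sub_cancel] at h3
      linarith) A (fun u hu => hA _ (hzY u hu)) 0 ⟨le_rfl, zero_le_one⟩ (2 * w / W) ⟨by positivity, by
        rw [div_le_one hW0]
        exact h1⟩
    have e1 : (fun i => Y i + 0 * (z i - Y i)) = Y := by
      funext i
      ring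
    have e2 : (fun i => Y i + (2 * w / W) * (z i - Y i)) = Y' := by
      funext i
      rw [hz]
      field_simp
      ring
    simp only [e1, e2] at h2
    have e3 : |0 - 2 * w / W| = 2 * w / W := by
      rw [zero_sub, abs_neg, abs_of_nonneg]
      positivity
    rw [e3] at h2
    refine h2.trans ?_
    apply mul_le_mul_of_nonneg_right _ hA0
    apply mul_le_mul_of_nonneg_right (by linarith)
    positivity
  · push Not at h1
    have h2 := hA Y (fun i => by rw [sub_self, abs_zero]; exact hW0)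
    have h3 := hA Y' (fun i => (hY i).trans_le hwW)
    have h4 : |g Y - g Y'| ≤ |g Y| + |g Y'| := abs_sub _ _
    have h5 : 1 ≤ 2 * w / W := by
      rw [one_le_div hW0]
      exact h1.le
    have h6 : 2 * A ≤ (K + 2) * (2 * w / W) * A := by
      apply mul_le_mul_of_nonneg_right _ hA0
      nlinarith
    linarith

variable {M D : ℕ}

/-- the size of a functional at two points of a small window -/
theorem ph_var {e : ℕ} {Y Y' : Fin e → ℝ} {W w K : ℝ} (hW1 : W ≤ 1) (hw : 0 < w) (hwW : w ≤ W) (hK : 0 ≤ K)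
    {F : (Fin e → ℝ) → Fin M → ℝ}
    (hseg : ∀ P : MvPolynomial (Fin M) ℝ, P.totalDegree ≤ D → ∀ y z : Fin e → ℝ, (∀ i, |y i - Y i| ≤ 1) →
      (∀ i, |z i - Y i| ≤ 1) → BmS K (fun u => MvPolynomial.eval (F (fun i => y i + u * (z i - y i))) P))
    {A : Matrix (Mon M D) (Mon M D) ℝ} (hA : PdM A) {r K3 : ℝ}
    (hφ : ∀ y : Fin e → ℝ, (∀ i, |y i - Y i| < W) → phi r A (F y) ≤ K3) (hY : ∀ i, |Y' i - Y i| < w)
    (c : Mon M D → ℝ) :
    ph D (pol c) r (F Y) ≤ 2 * ph D (pol c) r (F Y') +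
      2 * nn M D * ((K + 2) * (2 * w / W)) ^ 2 * (K3 * qf A⁻¹ c) := by
  have hq : 0 ≤ qf A⁻¹ c := (pd_psd (inv_pdM hA)).2 c
  have hW0 : 0 < W := hw.trans_le hwW
  have hK3 : 0 ≤ K3 := (phi_nonneg _ (fun y => hA.nonneg y) _).trans (hφ Y (fun i => by
    rw [sub_self, abs_zero]; exact hW0))
  set A0 : ℝ := Real.sqrt (K3 * qf A⁻¹ c) with hA0
  have hA02 : A0 ^ 2 = K3 * qf A⁻¹ c := Real.sq_sqrt (mul_nonneg hK3 hq)
  set R : ℝ := (K + 2) * (2 * w / W) with hR
  have key : ∀ j ∈ (Finset.univ : Finset (Fin M → Fin (D + 1))), (MvPolynomial.eval (nodp D (F Y) r j) (pol c)) ^ 2 ≤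
      2 * (MvPolynomial.eval (nodp D (F Y') r j) (pol c)) ^ 2 + 2 * R ^ 2 * (K3 * qf A⁻¹ c) := by
    intro j _
    have h1 := win_var (g := fun y => MvPolynomial.eval (nodp D (F y) r j) (pol c)) (A := A0) hW1 hw hwW hK (by
      intro y z hy hz
      have h2 := hseg (Pool.Agent.Helper89.LX.shf (fun i => r * nod D (j i)) (pol c))
        ((Pool.Agent.Helper89.LX.shf_deg _ _).trans (pol_deg c)) y z hy hz
      simp only [eval_nodp] at h2
      exact h2) (by
      intro y hy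
      apply Real.abs_le_sqrt
      have h2 := cs_inv hA (vv (nodp D (F y) r j)) c
      rw [eval_pol, dotProduct_comm]
      refine h2.trans ?_
      apply mul_le_mul_of_nonneg_right _ hq
      refine le_trans ?_ (hφ y hy)
      exact Finset.single_le_sum (f := fun j => vv (nodp D (F y) r j) ⬝ᵥ (A *ᵥ vv (nodp D (F y) r j)))
        (fun j _ => hA.nonneg _) (Finset.mem_univ j)) hY
    set a : ℝ := MvPolynomial.eval (nodp D (F Y) r j) (pol c) with ha
    set b : ℝ := MvPolynomial.eval (nodp D (F Y') r j) (pol c) with hb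
    have h3 : (a - b) ^ 2 ≤ (R * A0) ^ 2 := by
      rw [← sq_abs (a - b)]
      exact pow_le_pow_left₀ (abs_nonneg _) h1 2
    rw [mul_pow, hA02] at h3
    nlinarith [sq_nonneg (a - 2 * b)]
  unfold ph
  refine (Finset.sum_le_sum key).trans (le_of_eq ?_)
  rw [Finset.sum_add_distrib, ← Finset.mul_sum, Finset.sum_const, nsmul_eq_mul, card_nodes]
  ring

/-- comparison of the dual forms at two points of a small window -/
theorem NQ_win {e : ℕ} {Y Y' : Fin e → ℝ} {W w K : ℝ} (hW1 : W ≤ 1) (hw : 0 < w) (hwW : w ≤ W) (hK : 0 ≤ K)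
    {F : (Fin e → ℝ) → Fin M → ℝ}
    (hseg : ∀ P : MvPolynomial (Fin M) ℝ, P.totalDegree ≤ D → ∀ y z : Fin e → ℝ, (∀ i, |y i - Y i| ≤ 1) →
      (∀ i, |z i - Y i| ≤ 1) → BmS K (fun u => MvPolynomial.eval (F (fun i => y i + u * (z i - y i))) P))
    {A : Matrix (Mon M D) (Mon M D) ℝ} (hA : PdM A) {r K3 : ℝ} (hr : 0 < r)
    (hφ : ∀ y : Fin e → ℝ, (∀ i, |y i - Y i| < W) → phi r A (F y) ≤ K3) (hY : ∀ i, |Y' i - Y i| < w)
    {K2 : ℝ} (hK2 : 1 ≤ K2) {Q Q' : Fin M → ℝ} (hQ : ∀ i, |Q i - F Y i| + r ≤ K2 * r)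
    (hQ' : ∀ i, |F Y' i - Q' i| + r ≤ K2 * r) (c : Mon M D → ℝ) :
    qf (NQ ((w / W) ^ 2) A r Q) c ≤ (2 * cM M D K2 ^ 2 + 8 * nn M D * (K + 2) ^ 2 * cM M D K2 * K3 + 1) *
      qf (NQ ((w / W) ^ 2) A r Q') c := by
  rw [qf_NQ, qf_NQ]
  have hq : 0 ≤ qf A⁻¹ c := (pd_psd (inv_pdM hA)).2 c
  have hW0 : 0 < W := hw.trans_le hwW
  have hK3 : 0 ≤ K3 := (phi_nonneg _ (fun y => hA.nonneg y) _).trans (hφ Y (fun i => by
    rw [sub_self, abs_zero]; exact hW0))
  have h1 := ph_var hW1 hw hwW hK hseg hA hφ hY c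
  have h2 := ph_nearM c r K2 hr hK2 (F Y) Q hQ
  have h3 := ph_nearM c r K2 hr hK2 Q' (F Y') hQ'
  have hc := cM_one M D hK2
  have hn := nn_one M D
  set cm := cM M D K2 with hcm
  set p1 := ph D (pol c) r (F Y) with hp1
  set p2 := ph D (pol c) r (F Y') with hp2
  set p' := ph D (pol c) r Q' with hp'
  have p0 : 0 ≤ p' := ph_nonneg _ _ _
  set q := qf A⁻¹ c with hqd
  set ep := (w / W) ^ 2 with hep
  have hep0 : 0 ≤ ep * q := mul_nonneg (sq_nonneg _) hq
  have e1 : 2 * nn M D * ((K + 2) * (2 * w / W)) ^ 2 * (K3 * q) = 8 * nn M D * (K + 2) ^ 2 * K3 * (ep * q) := by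
    rw [hep]
    field_simp
    ring
  rw [e1] at h1
  have h4 : ph D (pol c) r Q ≤ cm * (2 * (cm * p') + 8 * nn M D * (K + 2) ^ 2 * K3 * (ep * q)) := by
    refine h2.trans ?_
    apply mul_le_mul_of_nonneg_left _ (by linarith)
    linarith
  have h5 : 0 ≤ 8 * nn M D * (K + 2) ^ 2 * cm * K3 := by positivity
  have h6 : (2 * cm ^ 2 + 8 * nn M D * (K + 2) ^ 2 * cm * K3 + 1) * (p' + ep * q) =
      cm * (2 * (cm * p') + 8 * nn M D * (K + 2) ^ 2 * K3 * (ep * q)) + ep * q +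
      ((8 * nn M D * (K + 2) ^ 2 * cm * K3 + 1) * p' + 2 * cm ^ 2 * (ep * q)) := by ring
  rw [h6]
  have h7 : 0 ≤ (8 * nn M D * (K + 2) ^ 2 * cm * K3 + 1) * p' + 2 * cm ^ 2 * (ep * q) := by
    have := mul_nonneg (by linarith : 0 ≤ 8 * nn M D * (K + 2) ^ 2 * cm * K3 + 1) p0
    have h8 := mul_nonneg (by positivity : 0 ≤ 2 * cm ^ 2) hep0
    linarith
  linarith

/-- comparison of the dual forms at neighbouring points -/
theorem NQ_near {A : Matrix (Mon M D) (Mon M D) ℝ} (hA : PdM A) {ep r : ℝ} (hep : 0 < ep) (hr : 0 < r)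
    {Q Q' : Fin M → ℝ} (hQ : ∀ i, |Q i - Q' i| ≤ r) (c : Mon M D → ℝ) :
    qf (NQ ep A r Q) c ≤ cM M D 2 * qf (NQ ep A r Q') c := by
  rw [qf_NQ, qf_NQ]
  have hq : 0 ≤ qf A⁻¹ c := (pd_psd (inv_pdM hA)).2 c
  have h2 := ph_nearM c r 2 hr one_le_two Q' Q (fun i => by linarith [hQ i])
  have hc := cM_one M D one_le_two
  have h3 : 0 ≤ ep * qf A⁻¹ c := mul_nonneg hep.le hq
  nlinarith

end

end Pool.Agent.Helper66.MT
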