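import Pool.Agent.Helper66.MT.Lfm
import Pool.Agent.Helper66.MT.Win

/-! MULTI-TYPE LAYER: SPEED. From an admissible form at the window `c` to an admissible form at the window `c'`, which
bounds every functional of size one on the cell of the point which is bounded by `2 ^ ((c' - c) n)` times the old form. -/

set_option autoImplicit false

namespace Pool.Agent.Helper66.MT

open Finset Filter Topology Matrix Pool.Agent.Helper69.RK Pool.Agent.Helper31.EC Pool.Agent.Helper31.EC.Sp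
open Pool.Agent.Helper40.EL Pool.Agent.Helper84.MT Pool.Agent.Helper89.LX
open Pool.Agent.Helper3.LF (typ_and typ_mono mkFD sp_Sub sp_n typ_sub_le lb Mon pol vv ph ga phi gam nodp ph_nonneg
  phi_nonneg phi_mono phi_smul nn nn_one)
open Pool.Agent.Helper95.LF (PdM)
open Pool.Agent.Helper59.LF (fadd ladd)

noncomputable section

/-! ### finite families -/

theorem Sub_sum {S : Sp} {κ : Type} (s : Finset κ) (K : κ → ℕ → ℝ) (h : ∀ i ∈ s, S.Sub (K i)) :
    S.Sub (fun k => ∑ i ∈ s, K i k) := by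
  classical
  induction s using Finset.induction_on with
  | empty =>
    simp only [Finset.sum_empty]
    exact S.Sub_const le_rfl
  | insert i s hi ih =>
    simp only [Finset.sum_insert hi]
    exact (h i (Finset.mem_insert_self i s)).add (ih fun j hj => h j (Finset.mem_insert_of_mem hj))

theorem typ_true {S : Sp} : Sp.Typ (S := S) (fun _ _ => True) := by
  show Tendsto (fun k => mass (res (S.F k).μ (fun _ => ¬ True))) UF (𝓝 0)
  have h1 : (fun k => mass (res (S.F k).μ (fun _ => ¬ True))) = fun _ => (0 : ℝ) := by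
    funext k
    unfold mass
    apply Finset.sum_eq_zero
    intro ω _
    exact res_neg _ _ _ (by simp)
  rw [h1]
  exact tendsto_const_nhds

theorem typ_all {S : Sp} {κ : Type} [Finite κ] {E : κ → ∀ k, (S.F k).Ω → Prop} (h : ∀ i, Sp.Typ (E i)) :
    Sp.Typ (fun k ω => ∀ i, E i k ω) := by
  classical
  cases nonempty_fintype κ
  have h1 : ∀ s : Finset κ, Sp.Typ (fun k ω => ∀ i ∈ s, E i k ω) := by
    intro s
    induction s using Finset.induction_on with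
    | empty => exact typ_mono typ_true (Eventually.of_forall fun k ω _ _ i hi => absurd hi (Finset.notMem_empty i))
    | insert i s hi ih =>
      refine typ_mono (typ_and (h i) ih) (Eventually.of_forall fun k ω _ hE j hj => ?_)
      rcases Finset.mem_insert.mp hj with h2 | h2
      · rw [h2]
        exact hE.1
      · exact hE.2 j h2
  exact typ_mono (h1 Finset.univ) (Eventually.of_forall fun k ω _ hE i => hE i (Finset.mem_univ i))

/-- the forms of an admissible sequence are subexponential typically -/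
theorem adf_sub {S : Sp} {ι κ : Type} [Fintype ι] [DecidableEq ι] [Finite κ] {Φ : Gau S ι} {A : κ → Part S}
    {x : ∀ k, FD (S.F k) ι} (hx : Φ.Adf A x) : ∃ K : ℕ → ℝ, S.Sub K ∧ Sp.Typ (S := (lb x).sp)
      (fun k (ω : (x k).l.T.Ω) => Φ.φ k ((x k).l.p.π ω) ((x k).g ω) ≤ K k) := by
  have hx2 := (adf_fm.mp hx).2
  obtain ⟨K, hK, hT⟩ := typ_sub_le (S := (lb x).sp)
    (fun k (ω : (x k).l.T.Ω) => Φ.φ k ((x k).l.p.π ω) ((x k).g ω)) (fun e he => by
      show Tendsto (fun k => (x k).l.T.pb (fun ω => ¬ Φ.φ k ((x k).l.p.π ω) ((x k).g ω) ≤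
        2 ^ (e * ((lb x).sp.F k).n))) UF (𝓝 0)
      rw [Metric.tendsto_nhds]
      intro ε hε
      filter_upwards [hx2 (min e (ε / 2)) (lt_min he (by linarith))] with k hk
      rw [Real.dist_eq, sub_zero, abs_of_nonneg ((x k).l.T.pb_nonneg _)]
      have h1 := hk.2.1
      have h2 : min e (ε / 2) ≤ ε / 2 := min_le_right _ _
      refine lt_of_le_of_lt (le_trans (FSp.pb_mono _ ?_) h1) (by linarith)
      intro ω _ h3 h4
      apply h3
      refine h4.trans ?_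
      rw [sp_n]
      apply Real.rpow_le_rpow_of_exponent_le (by norm_num)
      exact mul_le_mul_of_nonneg_right (min_le_left _ _) (S.F k).pos.le)
  exact ⟨K, (sp_Sub _).mp hK, hT⟩

theorem abs_sub_lt_of_floor_eq {x y r : ℝ} (hr : 0 < r) (h : ⌊x / r⌋ = ⌊y / r⌋) : |x - y| < r := by
  have h1 : |x / r - y / r| < 1 := Int.abs_sub_lt_one_of_floor_eq_floor h
  rw [← sub_div, abs_div, abs_of_pos hr, div_lt_one hr] at h1
  exact h1

/-! ### the windows -/

variable {S : Sp} {M : ℕ} {E : ℕ → ℕ} {ι : Type} {D : ℕ}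

/-- the setoids of the conditions -/
def cndB (s : MSys S M E ι) (c : ℝ) : Option ι → ∀ k, Setoid (S.F k).Ω
  | none => fun k => Setoid.ker (s.Q.cellv 1 k)
  | some i => fun k => (s.lf i).La k ⊓ Setoid.ker ((s.lf i).Y.cellv c k)

theorem cndB_eq (s : MSys S M E ι) (c : ℝ) : (fun i k => fc (cndB s c i k)) = s.cnd c := by
  funext i k
  cases i <;> rfl

/-- the dual forms of one type are comparable on the smaller windows, on a typical event -/
theorem NQ_leaf {Q : S.VV M} (l : Leaf S Q E) {c c' : ℝ} (h0 : 0 ≤ c) (hc1 : c < 1) (hcc : c ≤ c')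
    {x : ∀ k, FD (S.F k) (Mon M D)} (hL : Nul S (fun k => (x k).l.leak (l.win c k)))
    (hA : ∀ᶠ k in UF, ∀ ω, (x k).l.T.μ ω ≠ 0 → PdM ((x k).g ω)) {K1 : ℕ → ℝ} (hK1 : S.Sub K1)
    (hφ : Sp.Typ (S := (lb x).sp) (fun k (ω : (x k).l.T.Ω) =>
      phi (S.dl 1 k) ((x k).g ω) (Q.v k ((x k).l.p.π ω)) ≤ K1 k)) :
    ∃ (K : ℕ → ℝ) (G : ∀ k, (x k).l.T.Ω → Prop), S.Sub K ∧ Sp.Typ (S := (lb x).sp) G ∧ ∀ᶠ k in UF, ∀ ω ω',
      (x k).l.T.μ ω ≠ 0 → (x k).l.T.μ ω' ≠ 0 → G k ω → G k ω' → (x k).l.V ω ω' → (x k).l.T.Z ω ω' →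
      (l.La k ⊓ Setoid.ker (l.Y.cellv c' k)) ((x k).l.p.π ω) ((x k).l.p.π ω') → ∀ v,
      qf (NQ ((S.dl c' k / S.dl c k) ^ 2) ((x k).g ω) (S.dl 1 k) (Q.v k ((x k).l.p.π ω))) v ≤
        K k * qf (NQ ((S.dl c' k / S.dl c k) ^ 2) ((x k).g ω') (S.dl 1 k) (Q.v k ((x k).l.p.π ω'))) v := by
  obtain ⟨K2, hK2, hT⟩ := typ_phi l h0 hc1 (lb x) hL (D := D) (fun k ω => (x k).g ω) hA
    (Eventually.of_forall fun k w w' hw hw' hZ hV _ => ((x k).meas w w' hw hw' hV hZ).1)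
  obtain ⟨K3, hK3, hK31, hnear⟩ := pt_near l
  obtain ⟨K4, hK4, hseg⟩ := l.seg D
  have hK5 : S.Sub (fun k => K2 k * K1 k) := hK2.mul hK1
  refine ⟨fun k => 2 * cM M D (K3 k) ^ 2 + 8 * nn M D * (K4 k + 2) ^ 2 * cM M D (K3 k) * (K2 k * K1 k) + 1, _, ?_,
    typ_and hT hφ, ?_⟩
  · have hcM := cM_Sub M D hK3 hK31
    have h8 : (0 : ℝ) ≤ 8 * nn M D := by
      have := nn_one M D
      positivity
    exact (((S.Sub_const zero_le_two).mul (Sub_pow' hcM 2)).add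
      ((((S.Sub_const h8).mul (Sub_pow' (hK4.add (S.Sub_const zero_le_two)) 2)).mul hcM).mul hK5)).add
      (S.Sub_const zero_le_one)
  · filter_upwards [hK2.1, hK31, hnear, hK4.1, hseg, hA, l.eval_mem D, l.fn] with k a2 a3 a4 a5 a6 a7 a8 a9 ω ω' hω hω' g1 g2
      hV hZ hB v
    have hAe : (x k).g ω = (x k).g ω' := ((x k).meas ω ω' hω hω' hV hZ).1
    have hs := (x k).l.p.supp ω hω
    have hs' := (x k).l.p.supp ω' hω'
    have hZ' : (S.F k).Z ((x k).l.p.π ω) ((x k).l.p.π ω') := ((x k).l.p.hZ ω ω' hω hω').mp hZ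
    have hF : l.F k ((x k).l.p.π ω) = l.F k ((x k).l.p.π ω') := a9 _ _ hs hs' hZ' hB.1
    rw [← hAe]
    refine NQ_win (F := l.F k ((x k).l.p.π ω)) (Y := l.Y.v k ((x k).l.p.π ω)) (Y' := l.Y.v k ((x k).l.p.π ω'))
      (K := K4 k) (K3 := K2 k * K1 k) (K2 := K3 k) ?_ (S.dl_pos c' k) (S.dl_anti hcc k) a5 ?_ (a7 ω hω) (S.dl_pos 1 k)
      ?_ ?_ a3 (fun i => (a4 _ hs i).1) ?_ v
    · have := S.dl_anti h0 k
      rwa [S.dl_zero] at this
    · intro P hP y z hy hz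
      exact (a6 _ hs _ (a8 _ hs P hP) y z hy hz).2
    · intro y hy
      exact (g1.1 y hy).trans (mul_le_mul_of_nonneg_left g1.2 a2)
    · intro i
      exact abs_sub_lt_of_floor_eq (S.dl_pos c' k) (congrFun hB.2 i).symm
    · intro i
      rw [hF]
      exact (a4 _ hs' i).2

/-- **SPEED** -/
theorem speed [Finite ι] (s : MSys S M E ι) {c c' : ℝ} (h0 : 0 ≤ c) (hc1 : c < 1) (hcc : c ≤ c')
    {x : ∀ k, FD (S.F k) (Mon M D)} (hx : (gaq s.Q D).Adf (s.cnd c) x) :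
    ∃ (W : ∀ k, Setoid (x k).l.T.Ω) (g : ∀ k, (x k).l.T.Ω → Matrix (Mon M D) (Mon M D) ℝ)
      (hm : ∀ k ω ω', (x k).l.T.μ ω ≠ 0 → (x k).l.T.μ ω' ≠ 0 → (fadd (x k).l (W k)).V ω ω' → (x k).l.T.Z ω ω' →
        g k ω = g k ω'),
      (gaq s.Q D).Adf (s.cnd c') (fun k => mkFD (fadd (x k).l (W k)) (g k) (hm k)) ∧
      ∃ K : ℕ → ℝ, S.Sub K ∧ (∀ᶠ k in UF, 1 ≤ K k) ∧ Sp.Typ (S := (lb x).sp) (fun k (ω : (x k).l.T.Ω) =>
        ∀ f : Mon M D → ℝ, (∀ z, (f ⬝ᵥ z) ^ 2 ≤ (S.dl c k / S.dl c' k) ^ 2 * qf ((x k).g ω) z) →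
          ph D (pol f) (S.dl 1 k) (s.Q.v k ((x k).l.p.π ω)) ≤ 1 → ∀ z, (f ⬝ᵥ z) ^ 2 ≤ K k * qf (g k ω) z) := by
  classical
  obtain ⟨K1, hK1, hφ⟩ := adf_sub hx
  have hdm := Gau.Adf.dm (gaq s.Q D) hx
  obtain ⟨K0, hK0, hone⟩ := (gaq s.Q D).one
  have hC : ∀ᶠ k in UF, ∀ ω, (x k).l.T.μ ω ≠ 0 → Cpd ((gaq s.Q D).cp k) ((x k).g ω) := by
    filter_upwards [(adf_fm.mp hx).2 1 one_pos] with k hk ω hω
    exact (hk.1 ω hω).1
  have hA : ∀ᶠ k in UF, ∀ ω, (x k).l.T.μ ω ≠ 0 → PdM ((x k).g ω) := by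
    filter_upwards [hC] with k hk ω hω
    exact (hk ω hω).pdM
  have hlf : ∀ i : ι, ∃ (K : ℕ → ℝ) (G : ∀ k, (x k).l.T.Ω → Prop), S.Sub K ∧ Sp.Typ (S := (lb x).sp) G ∧
      ∀ᶠ k in UF, ∀ ω ω', (x k).l.T.μ ω ≠ 0 → (x k).l.T.μ ω' ≠ 0 → G k ω → G k ω' → (x k).l.V ω ω' →
      (x k).l.T.Z ω ω' → cndB s c' (some i) k ((x k).l.p.π ω) ((x k).l.p.π ω') → ∀ v,
      qf (NQ ((S.dl c' k / S.dl c k) ^ 2) ((x k).g ω) (S.dl 1 k) (s.Q.v k ((x k).l.p.π ω))) v ≤
        K k * qf (NQ ((S.dl c' k / S.dl c k) ^ 2) ((x k).g ω') (S.dl 1 k) (s.Q.v k ((x k).l.p.π ω'))) v :=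
    fun i => NQ_leaf (s.lf i) h0 hc1 hcc (hdm (some i)) hA hK1 hφ
  choose KL Ge hKL hGe hcmp using hlf
  cases nonempty_fintype ι
  set ep : ℕ → ℝ := fun k => (S.dl c' k / S.dl c k) ^ 2 with hep
  have hep0 : ∀ k, 0 < ep k := fun k => by
    have h1 := S.dl_pos c' k
    have h2 := S.dl_pos c k
    positivity
  have hep1 : ∀ k, ep k ≤ 1 := fun k => by
    have h1 := S.dl_pos c' k
    have h2 := S.dl_pos c k
    apply pow_le_one₀ (by positivity)
    rw [div_le_one h2]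
    exact S.dl_anti hcc k
  set N : ∀ k, (x k).l.T.Ω → Matrix (Mon M D) (Mon M D) ℝ := fun k ω =>
    NQ (ep k) ((x k).g ω) (S.dl 1 k) (s.Q.v k ((x k).l.p.π ω)) with hN
  set G : ∀ k, (x k).l.T.Ω → Matrix (Mon M D) (Mon M D) ℝ := fun k ω => (K0 k + 1) • (N k ω)⁻¹ with hG
  have hnn := nn_one M D
  have hcM := cM_one M D one_le_two
  -- the constant
  set K : ℕ → ℝ := fun k => (K0 k + 1) * nn M D + cM M D 2 + ∑ i, KL i k with hK
  have hKS : S.Sub K := ((((hK0.add (S.Sub_const zero_le_one)).mul (S.Sub_const (by linarith))).add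
    (S.Sub_const (by linarith))).add (Sub_sum _ _ fun i _ => hKL i))
  have hKLn : ∀ᶠ k in UF, ∀ i, 0 ≤ KL i k := by
    rw [eventually_all]
    exact fun i => (hKL i).1
  -- the forms are above the identity
  have hlow : ∀ᶠ k in UF, ∀ ω, (x k).l.T.μ ω ≠ 0 → PdM (N k ω) ∧ (∀ z, z ⬝ᵥ z ≤ qf (G k ω) z) ∧
      phi (S.dl 1 k) (G k ω) (s.Q.v k ((x k).l.p.π ω)) ≤ (K0 k + 1) * nn M D := by
    filter_upwards [hC, hone, hK0.1] with k a b d ω hω
    have hP := (a ω hω).pdM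
    refine ⟨NQ_pdM (hep0 k) hP, fun z => ?_, ?_⟩
    · rw [hG]
      simp only [qf_smul]
      exact NQ_ge (hep0 k) (hep1 k) hP (a ω hω).2.1 d (b _ ((x k).l.p.supp ω hω)) z
    · rw [hG]
      simp only [phi_smul]
      exact mul_le_mul_of_nonneg_left (phi_NQ (hep0 k) hP) (by linarith)
  have hGC : ∀ᶠ k in UF, ∀ ω, (x k).l.T.μ ω ≠ 0 → Cpd ((gaq s.Q D).cp k) (G k ω) := by
    filter_upwards [hlow, (gaq s.Q D).cap, ((hK0.add (S.Sub_const zero_le_one)).mul
      (S.Sub_const (K := nn M D) (by linarith))).eventually_le one_pos, hK0.1] with k a b d e ω hω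
    obtain ⟨a1, a2, a3⟩ := a ω hω
    have hs : (G k ω).IsSymm := (inv_symm a1).smul _
    refine ⟨hs, a2, fun z => ?_⟩
    have hpd : PdM (G k ω) := ⟨hs, fun v hv => lt_of_lt_of_le (dot_self_pos hv) (a2 v)⟩
    refine (b ((x k).l.p.π ω) ((x k).l.p.supp ω hω) _ hpd z).trans ?_
    apply mul_le_mul_of_nonneg_right _ (dot_self_nonneg z)
    unfold Gau.cp
    rw [add_mul, Real.rpow_add (by norm_num)]
    apply mul_le_mul_of_nonneg_left _ (by positivity)
    refine a3.trans ?_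
    linarith
  have hφG : Sp.Typ (S := (lb x).sp) (fun k (ω : (x k).l.T.Ω) =>
      (gaq s.Q D).φ k ((x k).l.p.π ω) (G k ω) ≤ K k) := by
    refine typ_mono (S := (lb x).sp) typ_true ?_
    filter_upwards [hlow, hKLn] with k a b ω hω _
    refine (a ω hω).2.2.trans ?_
    have h1 : 0 ≤ ∑ i, KL i k := Finset.sum_nonneg fun i _ => b i
    simp only [hK]
    linarith
  have hn : ∀ i, ∀ᶠ k in UF, ∀ ω ω', (lb x k).T.μ ω ≠ 0 → (lb x k).T.μ ω' ≠ 0 → (∀ i, Ge i k ω) → (∀ i, Ge i k ω') →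
      (lb x k).V ω ω' → (lb x k).T.Z ω ω' → cndB s c' i k ((lb x k).p.π ω) ((lb x k).p.π ω') →
      ∀ v, qf (G k ω) v ≤ K k * qf (G k ω') v := by
    intro i
    have key : ∀ k ω ω' (L : ℝ), 0 ≤ L → L ≤ K k → PdM (N k ω) → PdM (N k ω') → 0 ≤ K0 k →
        (∀ v, qf (N k ω') v ≤ L * qf (N k ω) v) → ∀ v, qf (G k ω) v ≤ K k * qf (G k ω') v := by
      intro k ω ω' L hL0 hLK h1 h2 hK0k h3 v
      have h4 := inv_anti h2 h1 hL0 h3 v
      have h5 : 0 ≤ qf (N k ω')⁻¹ v := (pd_psd (inv_pdM h2)).2 v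
      have h6 : qf (N k ω)⁻¹ v ≤ K k * qf (N k ω')⁻¹ v := h4.trans (mul_le_mul_of_nonneg_right hLK h5)
      simp only [hG, qf_smul]
      have := mul_le_mul_of_nonneg_left h6 (by linarith : 0 ≤ K0 k + 1)
      linarith
    cases i with
    | none =>
      filter_upwards [hlow, hK0.1, hKLn, hA] with k a b d e ω ω' hω hω' _ _ hV hZ hB v
      have h1 : 0 ≤ ∑ i, KL i k := Finset.sum_nonneg fun i _ => d i
      apply key k ω ω' (cM M D 2) (by linarith) (by
        simp only [hK]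
        have : 0 ≤ (K0 k + 1) * nn M D := by positivity
        linarith) (a ω hω).1 (a ω' hω').1 b
      intro v
      have hAe : (x k).g ω = (x k).g ω' := ((x k).meas ω ω' hω hω' hV hZ).1
      simp only [hN, ← hAe]
      apply NQ_near (e ω hω) (hep0 k) (S.dl_pos 1 k)
      intro j
      exact abs_sub_le_of_floor_eq (S.dl_pos 1 k) (congrFun hB j).symm
    | some i =>
      filter_upwards [hlow, hK0.1, hKLn, hcmp i] with k a b d e ω ω' hω hω' hE hE' hV hZ hB v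
      apply key k ω ω' (KL i k) (d i) (by
        simp only [hK]
        have h1 : KL i k ≤ ∑ i, KL i k := Finset.single_le_sum (fun i _ => d i) (Finset.mem_univ i)
        have : 0 ≤ (K0 k + 1) * nn M D := by positivity
        linarith) (a ω hω).1 (a ω' hω').1 b
      intro v
      exact e ω' ω hω' hω (hE' i) (hE i) ((x k).l.V.symm' hV) ((x k).l.T.Z.symm' hZ)
        ((cndB s c' (some i) k).symm' hB) v
  have hdm' : (lb x).DMf (fun i k => fc (cndB s c' i k)) := by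
    rw [cndB_eq]
    exact MSys.DMc.mono hcc hdm
  obtain ⟨W, g, hm, hadf, K', hK', hT⟩ := form_label (gaq s.Q D)
    (fun k ω A B _ _ h => phi_mono _ h _) (fun k ω c A => phi_smul _ _ _ _) (cndB s c') hdm' G hGC hKS hφG _
    (typ_all (S := (lb x).sp) hGe) hn
  rw [cndB_eq] at hadf
  refine ⟨W, g, hm, hadf, fun k => 2 * K' k + 1, ((S.Sub_const zero_le_two).mul hK').add (S.Sub_const zero_le_one), ?_, ?_⟩
  · filter_upwards [hK'.1] with k hk
    linarith
  refine typ_mono (S := (lb x).sp) hT ?_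
  filter_upwards [hlow, hK0.1, hC, hK'.1] with k a b d e ω hω h1 f hf hp z
  obtain ⟨a1, a2, a3⟩ := a ω hω
  have hP := (d ω hω).pdM
  have hepi : (ep k)⁻¹ = (S.dl c k / S.dl c' k) ^ 2 := by
    simp only [hep]
    rw [← inv_pow, inv_div]
  have h2 := NQ_fun (hep0 k) hP (fun z => by rw [hepi]; exact hf z) hp z
  have h3 := h1.1 z
  have h4 : 0 ≤ qf (N k ω)⁻¹ z := (pd_psd (inv_pdM a1)).2 z
  have h5 : qf (N k ω)⁻¹ z ≤ qf (G k ω) z := by
    simp only [hG, qf_smul]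
    nlinarith
  have h6 : 0 ≤ qf (g k ω) z := by
    by_contra hc
    push Not at hc
    have h7 : 0 ≤ qf (G k ω) z := h4.trans h5
    have h8 := h1.2 z
    have h9 : K' k * qf (g k ω) z ≤ 0 := mul_nonpos_of_nonneg_of_nonpos e hc.le
    by_cases hz : z = 0
    · subst hz
      unfold qf at hc
      simp at hc
    · have h10 := (dot_self_pos hz).trans_le (a2 z)
      linarith
  calc (f ⬝ᵥ z) ^ 2 ≤ 2 * qf (N k ω)⁻¹ z := h2
    _ ≤ 2 * (K' k * qf (g k ω) z) := by linarith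
    _ ≤ (2 * K' k + 1) * qf (g k ω) z := by linarith

end

end Pool.Agent.Helper66.MT
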