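import Pool.Agent.Helper66.MT.Spd
import Pool.Agent.Helper3.LF.Spa

/-! MULTI-TYPE LAYER: SPEED for the gradient. The Gram matrix of the gradients of the new form is at least
`min (L ^ 2) (1 / (r ^ 2 gam))` times the old one, `L = 2 ^ ((c' - c) n)`; in particular the exponent of the gradient
increases at least as fast as the window, up to saturation. -/

set_option autoImplicit false

namespace Pool.Agent.Helper66.MT

open Finset Filter Topology Matrix Pool.Agent.Helper69.RK Pool.Agent.Helper31.EC Pool.Agent.Helper31.EC.Sp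
open Pool.Agent.Helper40.EL Pool.Agent.Helper84.MT Pool.Agent.Helper89.LX
open Pool.Agent.Helper3.LF (typ_and typ_mono mkFD sp_Sub sp_n typ_sub_le lb Mon pol vv ph ga phi gam nodp ph_nonneg
  phi_nonneg phi_mono phi_smul nn nn_one Cu Cm Cu_one Cm_one ga_nonneg gam_nonneg gam_mono gam_smul)
open Pool.Agent.Helper95.LF (PdM)
open Pool.Agent.Helper59.LF (fadd ladd)

noncomputable section

section
variable {M D : ℕ}

theorem eval_pol_smul (a : ℝ) (v : Mon M D → ℝ) (p : Fin M → ℝ) :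
    MvPolynomial.eval p (pol (a • v)) = a * MvPolynomial.eval p (pol v) := by
  rw [Pool.Agent.Helper3.LF.eval_pol, Pool.Agent.Helper3.LF.eval_pol, smul_dotProduct, smul_eq_mul]

theorem ph_smul (a : ℝ) (v : Mon M D → ℝ) (r : ℝ) (p : Fin M → ℝ) :
    ph D (pol (a • v)) r p = a ^ 2 * ph D (pol v) r p := by
  unfold ph
  rw [Finset.mul_sum]
  refine Finset.sum_congr rfl fun j _ => ?_
  rw [eval_pol_smul, mul_pow]

theorem Wq_zero (q : Fin M → ℝ) (e : Fin M → ℝ) : (Wq M D q *ᵥ e) (Mon.zero M D) = 0 := by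
  unfold Matrix.mulVec dotProduct
  apply Finset.sum_eq_zero
  intro a _
  have h1 : Wq M D q (Mon.zero M D) a = 0 := Pool.Agent.Helper3.LF.dd_zero a q
  show Wq M D q (Mon.zero M D) a * e a = 0
  rw [h1, zero_mul]

theorem coord_sq_le {ι : Type} [Fintype ι] (z : ι → ℝ) (i : ι) : z i ^ 2 ≤ z ⬝ᵥ z := by
  unfold dotProduct
  rw [pow_two]
  exact Finset.single_le_sum (f := fun i => z i * z i) (fun i _ => mul_self_nonneg _) (Finset.mem_univ i)

/-- the constant of the gradient version -/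
def cJ (M D : ℕ) (K1 : ℝ) : ℝ := Fintype.card (Mon M D) * (2 * (1 + Cm M D ^ 2 * K1)) *
  (nn M D * (1 + M * (Cu D * Cm M D)) ^ 2)

theorem cJ_nonneg (M D : ℕ) {K1 : ℝ} (h : 0 ≤ K1) : 0 ≤ cJ M D K1 := by
  have := nn_one M D
  unfold cJ
  positivity

/-- the Gram matrix of the gradients, from the bounds of functionals -/
theorem Jq_fun {A B : Matrix (Mon M D) (Mon M D) ℝ} (hA : PdM A) (h1A : ∀ x, x ⬝ᵥ x ≤ qf A x) {r K1 : ℝ} (hr : 0 < r)
    {p : Fin M → ℝ} (hφ : phi r A p ≤ K1) {L K : ℝ}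
    (hP : ∀ f : Mon M D → ℝ, (∀ z, (f ⬝ᵥ z) ^ 2 ≤ L ^ 2 * qf A z) → ph D (pol f) r p ≤ 1 →
      ∀ z, (f ⬝ᵥ z) ^ 2 ≤ K * qf B z) (e : Fin M → ℝ) :
    min (L ^ 2) ((r ^ 2 * gam r A p)⁻¹) * (e ⬝ᵥ (Jq r A p *ᵥ e)) ≤ cJ M D K1 * K * (e ⬝ᵥ (Jq r B p *ᵥ e)) := by
  classical
  obtain ⟨C, hC, hCφ, hCg⟩ := Pool.Agent.Helper3.LF.exists_rows A hA
  have hg0 : 0 ≤ gam r A p := gam_nonneg r (fun x => hA.nonneg x) p
  have hK1 : 0 ≤ K1 := (phi_nonneg _ (fun y => hA.nonneg y) _).trans hφ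
  have hCm := Cm_one M D
  have hCu := Cu_one D
  have hnn := nn_one M D
  set m : ℝ := min (L ^ 2) ((r ^ 2 * gam r A p)⁻¹) with hm
  have hm0 : 0 ≤ m := le_min (sq_nonneg _) (by positivity)
  set X : ℝ := 2 * (1 + Cm M D ^ 2 * K1) with hX
  have hX1 : 1 ≤ X := by
    have : 0 ≤ Cm M D ^ 2 * K1 := by positivity
    linarith
  set Cp : ℝ := nn M D * (1 + M * (Cu D * Cm M D)) ^ 2 with hCp
  have hCp1 : 1 ≤ Cp := by
    refine one_le_mul_of_one_le_of_one_le hnn (one_le_pow₀ ?_)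
    have : 0 ≤ (M : ℝ) * (Cu D * Cm M D) := by positivity
    linarith
  set lam : ℝ := Real.sqrt (m / (X * Cp)) with hlam
  have hlam2 : lam ^ 2 = m / (X * Cp) := Real.sq_sqrt (by positivity)
  set f : Mon M D → Mon M D → ℝ := fun k => lam • Pool.Agent.Helper3.LF.shf (C k) (MvPolynomial.eval p (pol (C k)))
    with hf
  have hqA : ∀ z, qf A z = ∑ k, (C k ⬝ᵥ z) ^ 2 := by
    intro z
    unfold qf
    rw [hC, Pool.Agent.Helper3.LF.qf_rows]
  have hrow : ∀ k z, (C k ⬝ᵥ z) ^ 2 ≤ qf A z := by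
    intro k z
    rw [hqA]
    exact Finset.single_le_sum (f := fun k => (C k ⬝ᵥ z) ^ 2) (fun _ _ => sq_nonneg _) (Finset.mem_univ k)
  have hc2 : ∀ k, (MvPolynomial.eval p (pol (C k))) ^ 2 ≤ Cm M D ^ 2 * K1 := by
    intro k
    have h2 := Pool.Agent.Helper3.LF.val_le (D := D) (pol (C k)) (Pool.Agent.Helper3.LF.pol_deg _) r 1 hr le_rfl p p
      (fun i => by rw [sub_self, abs_zero, one_mul]; exact hr.le)
    rw [one_pow, mul_one] at h2
    refine h2.trans ?_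
    apply mul_le_mul_of_nonneg_left _ (sq_nonneg _)
    refine le_trans ?_ hφ
    rw [hCφ]
    exact Finset.single_le_sum (f := fun k => ph D (pol (C k)) r p) (fun _ _ => ph_nonneg _ _ _) (Finset.mem_univ k)
  have hfz : ∀ k z, (f k ⬝ᵥ z) ^ 2 ≤ L ^ 2 * qf A z := by
    intro k z
    have e1 : f k ⬝ᵥ z = lam * (C k ⬝ᵥ z - MvPolynomial.eval p (pol (C k)) * z (Mon.zero M D)) := by
      rw [hf]
      simp only [smul_dotProduct, smul_eq_mul]
      rw [Pool.Agent.Helper3.LF.shf_dot]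
    rw [e1, mul_pow, hlam2]
    have h2 := hrow k z
    have h3 := h1A z
    have h4 := coord_sq_le z (Mon.zero M D)
    have h5 : 0 ≤ qf A z := hA.nonneg z
    have h6 : (C k ⬝ᵥ z - MvPolynomial.eval p (pol (C k)) * z (Mon.zero M D)) ^ 2 ≤ X * qf A z := by
      have h7 : (MvPolynomial.eval p (pol (C k)) * z (Mon.zero M D)) ^ 2 ≤ Cm M D ^ 2 * K1 * qf A z := by
        rw [mul_pow]
        exact mul_le_mul (hc2 k) (h4.trans h3) (sq_nonneg _) (by positivity)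
      rw [hX]
      nlinarith [sq_nonneg (C k ⬝ᵥ z + MvPolynomial.eval p (pol (C k)) * z (Mon.zero M D))]
    have h8 : m / (X * Cp) * X ≤ L ^ 2 := by
      have e2 : m / (X * Cp) * X = m / Cp := by
        field_simp
      rw [e2]
      exact (div_le_self hm0 hCp1).trans (min_le_left _ _)
    calc m / (X * Cp) * (C k ⬝ᵥ z - MvPolynomial.eval p (pol (C k)) * z (Mon.zero M D)) ^ 2 ≤
        m / (X * Cp) * (X * qf A z) := mul_le_mul_of_nonneg_left h6 (by positivity)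
      _ = m / (X * Cp) * X * qf A z := by ring
      _ ≤ _ := mul_le_mul_of_nonneg_right h8 h5
  have hfp : ∀ k, ph D (pol (f k)) r p ≤ 1 := by
    intro k
    have hga : ga D (pol (C k)) r p ≤ gam r A p := by
      rw [hCg]
      exact Finset.single_le_sum (f := fun k => ga D (pol (C k)) r p) (fun _ _ => ga_nonneg _ _ _) (Finset.mem_univ k)
    have h2 := Pool.Agent.Helper3.LF.ph_shf_le (C k) (MvPolynomial.eval p (pol (C k))) r 1
      (r * Real.sqrt (ga D (pol (C k)) r p)) (Cu D * Cm M D) hr le_rfl (by positivity) (by positivity) p (by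
        rw [sub_self, abs_zero]
        positivity) (by
        intro i y hy
        have h3 := Pool.Agent.Helper3.LF.grad_near (D := D) (pol (C k)) (Pool.Agent.Helper3.LF.pol_deg _) r 1 hr le_rfl
          p y hy i
        rw [one_pow, mul_one] at h3
        have h4 := mul_le_mul_of_nonneg_left h3 hr.le
        rw [one_mul]
        linarith)
    have h3 : ph D (pol (f k)) r p ≤ lam ^ 2 * (Cp * (r ^ 2 * ga D (pol (C k)) r p)) := by
      rw [hf]
      simp only [ph_smul]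
      apply mul_le_mul_of_nonneg_left _ (sq_nonneg _)
      refine h2.trans (le_of_eq ?_)
      rw [hCp, mul_pow, mul_pow, Real.sq_sqrt (ga_nonneg _ _ _)]
      ring
    refine h3.trans ?_
    rw [hlam2]
    have h4 : r ^ 2 * ga D (pol (C k)) r p ≤ r ^ 2 * gam r A p := mul_le_mul_of_nonneg_left hga (sq_nonneg _)
    have h5 : m * (r ^ 2 * gam r A p) ≤ 1 := by
      have h6 : m * (r ^ 2 * gam r A p) ≤ (r ^ 2 * gam r A p)⁻¹ * (r ^ 2 * gam r A p) :=
        mul_le_mul_of_nonneg_right (min_le_right _ _) (by positivity)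
      refine h6.trans ?_
      by_cases h7 : r ^ 2 * gam r A p = 0
      · rw [h7, mul_zero]
        exact zero_le_one
      · rw [inv_mul_cancel₀ h7]
    calc m / (X * Cp) * (Cp * (r ^ 2 * ga D (pol (C k)) r p)) ≤ m / (X * Cp) * (Cp * (r ^ 2 * gam r A p)) :=
          mul_le_mul_of_nonneg_left (mul_le_mul_of_nonneg_left h4 (by linarith)) (by positivity)
      _ = m * (r ^ 2 * gam r A p) / X := by field_simp
      _ ≤ 1 := by
          rw [div_le_one (by linarith)]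
          linarith
  -- the rows
  have hBk : ∀ k z, (f k ⬝ᵥ z) ^ 2 ≤ K * qf B z := fun k => hP (f k) (hfz k) (hfp k)
  have hk : ∀ k, lam ^ 2 * ph D (dir e (pol (C k))) r p ≤ K * (e ⬝ᵥ (Jq r B p *ᵥ e)) := by
    intro k
    rw [Jq_qf, Finset.mul_sum]
    unfold ph
    rw [Finset.mul_sum]
    refine Finset.sum_le_sum fun j _ => ?_
    have h2 := hBk k (Wq M D (nodp D p r j) *ᵥ e)
    have e1 : f k ⬝ᵥ (Wq M D (nodp D p r j) *ᵥ e) = lam * MvPolynomial.eval (nodp D p r j) (dir e (pol (C k))) := by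
      rw [eval_dir, hf]
      simp only [smul_dotProduct, smul_eq_mul]
      rw [Pool.Agent.Helper3.LF.shf_dot, Wq_zero, mul_zero, sub_zero]
    rw [e1, mul_pow] at h2
    exact h2
  have hsum : lam ^ 2 * (e ⬝ᵥ (Jq r A p *ᵥ e)) ≤ Fintype.card (Mon M D) * (K * (e ⬝ᵥ (Jq r B p *ᵥ e))) := by
    have e1 : e ⬝ᵥ (Jq r A p *ᵥ e) = ∑ k, ph D (dir e (pol (C k))) r p := by
      conv_lhs => rw [hC]
      exact Jq_rows r C p e
    rw [e1, Finset.mul_sum]
    refine (Finset.sum_le_card_nsmul _ _ _ fun k _ => hk k).trans (le_of_eq ?_)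
    rw [nsmul_eq_mul, Finset.card_univ]
  have hXC : 0 < X * Cp := by positivity
  rw [hlam2, div_mul_eq_mul_div, div_le_iff₀ hXC] at hsum
  refine hsum.trans (le_of_eq ?_)
  unfold cJ
  ring

/-- the size of the gradient is the trace -/
theorem gam_eq_sum (r : ℝ) (A : Matrix (Mon M D) (Mon M D) ℝ) (p : Fin M → ℝ) :
    gam r A p = ∑ a, Jq r A p a a := by
  unfold gam
  exact Finset.sum_congr rfl fun a _ => (Jq_apply r A p a a).symm

theorem single_dv {ι : Type} [Fintype ι] [DecidableEq ι] (J : Matrix ι ι ℝ) (a : ι) :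
    (Pi.single a 1 : ι → ℝ) ⬝ᵥ (J *ᵥ (Pi.single a 1)) = J a a := by
  rw [Matrix.mulVec_single_one, single_dotProduct, one_mul]
  rfl

theorem gam_fun {A B : Matrix (Mon M D) (Mon M D) ℝ} (hA : PdM A) {r : ℝ} {p : Fin M → ℝ} {L K : ℝ}
    (hJ : ∀ e : Fin M → ℝ, min (L ^ 2) ((r ^ 2 * gam r A p)⁻¹) * (e ⬝ᵥ (Jq r A p *ᵥ e)) ≤
      K * (e ⬝ᵥ (Jq r B p *ᵥ e))) : min (L ^ 2 * gam r A p) ((r ^ 2)⁻¹) ≤ K * gam r B p := by
  classical
  have hg0 : 0 ≤ gam r A p := gam_nonneg r (fun x => hA.nonneg x) p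
  have h1 : min (L ^ 2) ((r ^ 2 * gam r A p)⁻¹) * gam r A p ≤ K * gam r B p := by
    have h2 : ∀ a : Fin M, min (L ^ 2) ((r ^ 2 * gam r A p)⁻¹) * Jq r A p a a ≤ K * Jq r B p a a := by
      intro a
      have h3 := hJ (Pi.single a 1)
      rwa [single_dv, single_dv] at h3
    generalize min (L ^ 2) ((r ^ 2 * gam r A p)⁻¹) = m at h2 ⊢
    rw [gam_eq_sum r A p, gam_eq_sum r B p, Finset.mul_sum, Finset.mul_sum]
    exact Finset.sum_le_sum fun a _ => h2 a
  refine le_trans ?_ h1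
  rcases eq_or_lt_of_le hg0 with h2 | h2
  · rw [← h2, mul_zero, mul_zero]
    exact min_le_left _ _
  · rw [min_mul_of_nonneg _ _ h2.le, mul_inv, mul_assoc, inv_mul_cancel₀ h2.ne', mul_one]

end

variable {S : Sp} {M : ℕ} {E : ℕ → ℕ} {ι : Type} {D : ℕ}

/-- **SPEED, functionals, Gram matrix of the gradients, gradient** -/
theorem speed_all [Finite ι] (s : MSys S M E ι) {c c' : ℝ} (h0 : 0 ≤ c) (hc1 : c < 1) (hcc : c ≤ c')
    {x : ∀ k, FD (S.F k) (Mon M D)} (hx : (gaq s.Q D).Adf (s.cnd c) x) :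
    ∃ (W : ∀ k, Setoid (x k).l.T.Ω) (g : ∀ k, (x k).l.T.Ω → Matrix (Mon M D) (Mon M D) ℝ)
      (hm : ∀ k ω ω', (x k).l.T.μ ω ≠ 0 → (x k).l.T.μ ω' ≠ 0 → (fadd (x k).l (W k)).V ω ω' → (x k).l.T.Z ω ω' →
        g k ω = g k ω'),
      (gaq s.Q D).Adf (s.cnd c') (fun k => mkFD (fadd (x k).l (W k)) (g k) (hm k)) ∧
      ∃ K : ℕ → ℝ, S.Sub K ∧ (∀ᶠ k in UF, 1 ≤ K k) ∧ Sp.Typ (S := (lb x).sp) (fun k (ω : (x k).l.T.Ω) =>
        (∀ f : Mon M D → ℝ, (∀ z, (f ⬝ᵥ z) ^ 2 ≤ (S.dl c k / S.dl c' k) ^ 2 * qf ((x k).g ω) z) →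
          ph D (pol f) (S.dl 1 k) (s.Q.v k ((x k).l.p.π ω)) ≤ 1 → ∀ z, (f ⬝ᵥ z) ^ 2 ≤ K k * qf (g k ω) z) ∧
        (∀ e : Fin M → ℝ, min ((S.dl c k / S.dl c' k) ^ 2)
            ((S.dl 1 k ^ 2 * gam (S.dl 1 k) ((x k).g ω) (s.Q.v k ((x k).l.p.π ω)))⁻¹) *
            (e ⬝ᵥ (Jq (S.dl 1 k) ((x k).g ω) (s.Q.v k ((x k).l.p.π ω)) *ᵥ e)) ≤
          K k * (e ⬝ᵥ (Jq (S.dl 1 k) (g k ω) (s.Q.v k ((x k).l.p.π ω)) *ᵥ e))) ∧
        min ((S.dl c k / S.dl c' k) ^ 2 * gam (S.dl 1 k) ((x k).g ω) (s.Q.v k ((x k).l.p.π ω)))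
            ((S.dl 1 k ^ 2)⁻¹) ≤ K k * gam (S.dl 1 k) (g k ω) (s.Q.v k ((x k).l.p.π ω))) := by
  classical
  obtain ⟨K1, hK1, hφ⟩ := adf_sub hx
  obtain ⟨W, g, hm, hadf, K, hK, hK2, hT⟩ := speed (D := D) s h0 hc1 hcc hx
  have hC : ∀ᶠ k in UF, ∀ ω, (x k).l.T.μ ω ≠ 0 → Cpd ((gaq s.Q D).cp k) ((x k).g ω) := by
    filter_upwards [(adf_fm.mp hx).2 1 one_pos] with k hk ω hω
    exact (hk.1 ω hω).1
  have hG : ∀ᶠ k in UF, ∀ ω, (x k).l.T.μ ω ≠ 0 → Cpd ((gaq s.Q D).cp k) (g k ω) := by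
    filter_upwards [(adf_fm.mp hadf).2 1 one_pos] with k hk ω hω
    exact (hk.1 ω hω).1
  set K' : ℕ → ℝ := fun k => K k + cJ M D (K1 k) * K k with hK'
  have hcJ : S.Sub (fun k => cJ M D (K1 k)) := by
    unfold cJ
    have h1 : (0 : ℝ) ≤ nn M D * (1 + M * (Cu D * Cm M D)) ^ 2 := by
      have := nn_one M D
      positivity
    exact ((S.Sub_const (Nat.cast_nonneg _)).mul ((S.Sub_const zero_le_two).mul ((S.Sub_const zero_le_one).add
      ((S.Sub_const (sq_nonneg _)).mul hK1)))).mul (S.Sub_const h1)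
  refine ⟨W, g, hm, hadf, K', hK.add (hcJ.mul hK), ?_, ?_⟩
  · filter_upwards [hK2, hK1.1] with k a b
    have h1 : (0 : ℝ) ≤ cJ M D (K1 k) := cJ_nonneg M D b
    have h2 : (0 : ℝ) ≤ K k := by linarith
    have h3 := mul_nonneg h1 h2
    simp only [hK']
    linarith
  · refine typ_mono (S := (lb x).sp) (typ_and hT hφ) ?_
    filter_upwards [hC, hG, hK2, hK1.1] with k a b d e ω hω h1
    have hA := a ω hω
    have hB := b ω hω
    have hd : 0 ≤ cJ M D (K1 k) * K k := mul_nonneg (cJ_nonneg M D e) (by linarith)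
    have hr := S.dl_pos 1 k
    have hJ : ∀ v : Fin M → ℝ, min ((S.dl c k / S.dl c' k) ^ 2)
            ((S.dl 1 k ^ 2 * gam (S.dl 1 k) ((x k).g ω) (s.Q.v k ((x k).l.p.π ω)))⁻¹) *
            (v ⬝ᵥ (Jq (S.dl 1 k) ((x k).g ω) (s.Q.v k ((x k).l.p.π ω)) *ᵥ v)) ≤
          K' k * (v ⬝ᵥ (Jq (S.dl 1 k) (g k ω) (s.Q.v k ((x k).l.p.π ω)) *ᵥ v)) := by
      intro v
      refine (Jq_fun (hA.pdM) hA.2.1 hr h1.2 h1.1 v).trans ?_
      apply mul_le_mul_of_nonneg_right _ (Jq_nonneg _ (fun x => hB.psd.2 x) _ _)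
      simp only [hK']
      linarith
    refine ⟨fun f hf hp z => ?_, hJ, gam_fun hA.pdM hJ⟩
    have h3 := h1.1 f hf hp z
    refine h3.trans ?_
    apply mul_le_mul_of_nonneg_right _ (hB.psd.2 z)
    simp only [hK']
    linarith

/-- the size of the gradient on the cell of the point, as a functional of forms -/
def gamF (Q : S.VV M) (D : ℕ) : ∀ k, (S.F k).Ω → Matrix (Mon M D) (Mon M D) ℝ → ℝ :=
  fun k ω A => gam (S.dl 1 k) A (Q.v k ω)

theorem gamF_MonG (Q : S.VV M) (D : ℕ) : MonG (gamF Q D) := by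
  intro k ω A B c _ h
  unfold gamF
  rw [← gam_smul]
  apply gam_mono
  intro x
  have h1 := h x
  rw [← qf_smul] at h1
  exact h1

/-- **SPEED, exponents**: the exponent of the gradient grows at least with speed `2` (the gradient is squared), up to
saturation -/
theorem speed_Hg [Finite ι] (s : MSys S M E ι) {c c' : ℝ} (h0 : 0 ≤ c) (hc1 : c < 1) (hcc : c ≤ c') {σ : ℝ}
    (h : (gaq s.Q D).Hg (s.cnd c) (gamF s.Q D) σ) :
    (gaq s.Q D).Hg (s.cnd c') (gamF s.Q D) (min (σ + 2 * (c' - c)) 2) := by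
  obtain ⟨x, hx, hσ⟩ := h
  obtain ⟨W, g, hm, hadf, K, hK, hK1, hT⟩ := speed_all (D := D) s h0 hc1 hcc hx
  refine ⟨_, hadf, fun e he => ?_⟩
  have h2 : Sp.Typ (S := (lb x).sp) (fun k (ω : (x k).l.T.Ω) =>
      2 ^ ((σ - e / 2) * (S.F k).n) ≤ gamF s.Q D k ((x k).l.p.π ω) ((x k).g ω)) := hσ (e / 2) (by linarith)
  have h3 : Sp.Typ (S := (lb x).sp) (fun k (ω : (x k).l.T.Ω) =>
      2 ^ ((min (σ + 2 * (c' - c)) 2 - e) * (S.F k).n) ≤ gamF s.Q D k ((x k).l.p.π ω) (g k ω)) := by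
    refine typ_mono (typ_and hT h2) ?_
    filter_upwards [hK.eventually_le (show 0 < e / 2 by linarith), hK1] with k a b ω hω h4
    obtain ⟨⟨-, -, h5⟩, h6⟩ := h4
    have hn := (S.F k).pos
    set n := (S.F k).n with hnd
    have e1 : (S.dl c k / S.dl c' k) ^ 2 = 2 ^ (2 * (c' - c) * n) := by
      unfold Sp.dl
      rw [← Real.rpow_sub (by norm_num), ← Real.rpow_natCast, ← Real.rpow_mul (by norm_num)]
      congr 1
      push_cast
      ring
    have e2 : (S.dl 1 k ^ 2)⁻¹ = 2 ^ (2 * n) := by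
      unfold Sp.dl
      rw [← Real.rpow_natCast, ← Real.rpow_mul (by norm_num), ← Real.rpow_neg (by norm_num)]
      congr 1
      push_cast
      ring
    rw [e1, e2] at h5
    set m := min (σ + 2 * (c' - c)) 2 with hmd
    have h7 : (2 : ℝ) ^ ((m - e / 2) * n) ≤ K k * gam (S.dl 1 k) (g k ω) (s.Q.v k ((x k).l.p.π ω)) := by
      refine le_trans (le_min ?_ ?_) h5
      · have h8 : (2 : ℝ) ^ (2 * (c' - c) * n) * 2 ^ ((σ - e / 2) * n) ≤
            2 ^ (2 * (c' - c) * n) * gam (S.dl 1 k) ((x k).g ω) (s.Q.v k ((x k).l.p.π ω)) :=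
          mul_le_mul_of_nonneg_left h6 (by positivity)
        refine le_trans ?_ h8
        rw [← Real.rpow_add (by norm_num)]
        apply Real.rpow_le_rpow_of_exponent_le (by norm_num)
        have h9 : m ≤ σ + 2 * (c' - c) := min_le_left _ _
        nlinarith
      · apply Real.rpow_le_rpow_of_exponent_le (by norm_num)
        have h9 : m ≤ 2 := min_le_right _ _
        nlinarith
    have h8 : 0 ≤ gam (S.dl 1 k) (g k ω) (s.Q.v k ((x k).l.p.π ω)) := by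
      by_contra hc
      push Not at hc
      have h9 : K k * gam (S.dl 1 k) (g k ω) (s.Q.v k ((x k).l.p.π ω)) ≤ 0 :=
        mul_nonpos_of_nonneg_of_nonpos (by linarith) hc.le
      have h10 : (0 : ℝ) < 2 ^ ((m - e / 2) * n) := by positivity
      linarith
    have h9 : K k * gam (S.dl 1 k) (g k ω) (s.Q.v k ((x k).l.p.π ω)) ≤
        2 ^ (e / 2 * n) * gam (S.dl 1 k) (g k ω) (s.Q.v k ((x k).l.p.π ω)) :=
      mul_le_mul_of_nonneg_right (by linarith) h8
    have h10 : (2 : ℝ) ^ (e / 2 * n) * 2 ^ ((m - e) * n) ≤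
        2 ^ (e / 2 * n) * gam (S.dl 1 k) (g k ω) (s.Q.v k ((x k).l.p.π ω)) := by
      rw [← Real.rpow_add (by norm_num)]
      have e3 : e / 2 * n + (m - e) * n = (m - e / 2) * n := by ring
      rw [e3]
      exact h7.trans h9
    exact le_of_mul_le_mul_left h10 (by positivity)
  exact h3

end

end Pool.Agent.Helper66.MT
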