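import Pool.Agent.Helper89.LX.Can
import Pool.Agent.Helper3.LF.Cap

/-! MULTI-TYPE LAYER: the dual form `N ^ (-1)`, `N = (size on the cell) + ep * A ^ (-1)`: inverse forms, Cauchy-Schwarz,
monotonicity, size. -/

set_option autoImplicit false

namespace Pool.Agent.Helper66.MT

open Finset Filter Topology Matrix Pool.Agent.Helper69.RK Pool.Agent.Helper31.EC Pool.Agent.Helper31.EC.Sp
open Pool.Agent.Helper40.EL Pool.Agent.Helper89.LX Pool.Agent.Helper3.LF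
open Pool.Agent.Helper95.LF (PdM)

noncomputable section

section
variable {ι : Type} [Fintype ι] [DecidableEq ι]

omit [DecidableEq ι] in
theorem qf_smul (c : ℝ) (A : Matrix ι ι ℝ) (v : ι → ℝ) : qf (c • A) v = c * qf A v := by
  unfold qf
  rw [Matrix.smul_mulVec, dotProduct_smul, smul_eq_mul]

omit [DecidableEq ι] in
theorem qf_add' (A B : Matrix ι ι ℝ) (v : ι → ℝ) : qf (A + B) v = qf A v + qf B v := by
  unfold qf
  rw [Matrix.add_mulVec, dotProduct_add]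

theorem qf_one (v : ι → ℝ) : qf (1 : Matrix ι ι ℝ) v = v ⬝ᵥ v := by
  unfold qf
  rw [Matrix.one_mulVec]

omit [DecidableEq ι] in
/-- Cauchy-Schwarz for a psd form -/
theorem cs_form {N : Matrix ι ι ℝ} (h : Psd N) (f w : ι → ℝ) : (f ⬝ᵥ (N *ᵥ w)) ^ 2 ≤ qf N f * qf N w := by
  have hs : w ⬝ᵥ (N *ᵥ f) = f ⬝ᵥ (N *ᵥ w) := by
    rw [Matrix.dotProduct_mulVec, ← Matrix.mulVec_transpose, h.1.eq, dotProduct_comm]
  have h1 : ∀ t : ℝ, 0 ≤ qf N w * (t * t) + 2 * (f ⬝ᵥ (N *ᵥ w)) * t + qf N f := by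
    intro t
    have h2 := h.2 (f + t • w)
    have e1 : qf N (f + t • w) = qf N w * (t * t) + 2 * (f ⬝ᵥ (N *ᵥ w)) * t + qf N f := by
      unfold qf
      rw [Matrix.mulVec_add, Matrix.mulVec_smul, add_dotProduct, dotProduct_add, dotProduct_add, smul_dotProduct,
        smul_dotProduct, dotProduct_smul, dotProduct_smul, hs]
      simp only [smul_eq_mul]
      ring
    rwa [e1] at h2
  have h3 := discrim_le_zero h1
  unfold discrim at h3
  nlinarith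

variable {N : Matrix ι ι ℝ}

theorem pd_unit (h : PdM N) : IsUnit N.det := isUnit_iff_ne_zero.mpr h.det_pos.ne'

theorem mul_inv' (h : PdM N) : N * N⁻¹ = 1 := Matrix.mul_nonsing_inv _ (pd_unit h)

theorem inv_symm (h : PdM N) : (N⁻¹).IsSymm := by
  unfold Matrix.IsSymm
  rw [Matrix.transpose_nonsing_inv, h.1.eq]

theorem inv_vec (h : PdM N) (z : ι → ℝ) : N *ᵥ (N⁻¹ *ᵥ z) = z := by
  rw [Matrix.mulVec_mulVec, mul_inv' h, Matrix.one_mulVec]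

theorem qf_inv (h : PdM N) (z : ι → ℝ) : qf N (N⁻¹ *ᵥ z) = qf N⁻¹ z := by
  unfold qf
  rw [inv_vec h, dotProduct_comm]

theorem inv_pdM (h : PdM N) : PdM N⁻¹ := by
  refine ⟨inv_symm h, fun z hz => ?_⟩
  have h1 := qf_inv h z
  unfold qf at h1
  rw [← h1]
  apply h.2
  intro h0
  apply hz
  rw [← inv_vec h z, h0, Matrix.mulVec_zero]

omit [DecidableEq ι] in
theorem pd_psd (h : PdM N) : Psd N := ⟨h.1, fun x => h.nonneg x⟩

/-- Cauchy-Schwarz for a form and its inverse -/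
theorem cs_inv (h : PdM N) (f z : ι → ℝ) : (f ⬝ᵥ z) ^ 2 ≤ qf N f * qf N⁻¹ z := by
  have h1 := cs_form (pd_psd h) f (N⁻¹ *ᵥ z)
  rwa [inv_vec h, qf_inv h] at h1

/-- bounds of functionals by the inverse -/
theorem qf_inv_le (h : PdM N) {f : ι → ℝ} {K : ℝ} (hK : 0 ≤ K) (hf : ∀ z, (f ⬝ᵥ z) ^ 2 ≤ K * qf N z) :
    qf N⁻¹ f ≤ K := by
  have h1 := hf (N⁻¹ *ᵥ f)
  rw [qf_inv h] at h1
  have h2 : f ⬝ᵥ (N⁻¹ *ᵥ f) = qf N⁻¹ f := rfl
  rw [h2] at h1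
  have h3 : 0 ≤ qf N⁻¹ f := (pd_psd (inv_pdM h)).2 f
  rcases eq_or_lt_of_le h3 with h4 | h4
  · rw [← h4]
    exact hK
  · rw [pow_two] at h1
    exact le_of_mul_le_mul_right h1 h4

/-- the inverse is antitone -/
theorem inv_anti {N' : Matrix ι ι ℝ} (h : PdM N) (h' : PdM N') {K : ℝ} (hK : 0 ≤ K)
    (hle : ∀ c, qf N c ≤ K * qf N' c) (z : ι → ℝ) : qf N'⁻¹ z ≤ K * qf N⁻¹ z := by
  have h1 := cs_inv h (N'⁻¹ *ᵥ z) z
  have h2 : (N'⁻¹ *ᵥ z) ⬝ᵥ z = qf N'⁻¹ z := dotProduct_comm _ _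
  have h3 := hle (N'⁻¹ *ᵥ z)
  rw [qf_inv h'] at h3
  rw [h2] at h1
  have h4 : 0 ≤ qf N'⁻¹ z := (pd_psd (inv_pdM h')).2 z
  have h5 : 0 ≤ qf N⁻¹ z := (pd_psd (inv_pdM h)).2 z
  rcases eq_or_lt_of_le h4 with h6 | h6
  · rw [← h6]
    exact mul_nonneg hK h5
  · have h7 : qf N'⁻¹ z * qf N'⁻¹ z ≤ K * qf N⁻¹ z * qf N'⁻¹ z := by
      rw [← pow_two]
      refine h1.trans ?_
      have := mul_le_mul_of_nonneg_right h3 h5
      linarith
    exact le_of_mul_le_mul_right h7 h6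

end

section
variable {M D : ℕ}

/-- the form `c -> ph (pol c)` -/
def EQ (D : ℕ) (r : ℝ) (p : Fin M → ℝ) : Matrix (Mon M D) (Mon M D) ℝ :=
  ∑ j : Fin M → Fin (D + 1), Matrix.vecMulVec (vv (nodp D p r j)) (vv (nodp D p r j))

theorem qf_vmv {ι : Type} [Fintype ι] (v c : ι → ℝ) : qf (Matrix.vecMulVec v v) c = (c ⬝ᵥ v) ^ 2 := by
  unfold qf
  rw [Matrix.vecMulVec_mulVec, pow_two]
  rw [dotProduct_smul, dotProduct_comm v c]
  rfl

theorem qf_sum' {ι κ : Type} [Fintype ι] (s : Finset κ) (A : κ → Matrix ι ι ℝ) (c : ι → ℝ) :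
    qf (∑ j ∈ s, A j) c = ∑ j ∈ s, qf (A j) c := by
  unfold qf
  rw [Matrix.sum_mulVec, dotProduct_sum]

theorem qf_EQ (r : ℝ) (p : Fin M → ℝ) (c : Mon M D → ℝ) : qf (EQ D r p) c = ph D (pol c) r p := by
  unfold EQ ph
  rw [qf_sum']
  refine Finset.sum_congr rfl fun j _ => ?_
  rw [qf_vmv, eval_pol]

theorem EQ_symm (r : ℝ) (p : Fin M → ℝ) : (EQ D r p).IsSymm := by
  unfold EQ Matrix.IsSymm
  rw [Matrix.transpose_sum]
  refine Finset.sum_congr rfl fun j _ => ?_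
  rw [Matrix.transpose_vecMulVec]

/-- the dual form -/
def NQ (ep : ℝ) (A : Matrix (Mon M D) (Mon M D) ℝ) (r : ℝ) (p : Fin M → ℝ) : Matrix (Mon M D) (Mon M D) ℝ :=
  EQ D r p + ep • A⁻¹

theorem qf_NQ (ep : ℝ) (A : Matrix (Mon M D) (Mon M D) ℝ) (r : ℝ) (p : Fin M → ℝ) (c : Mon M D → ℝ) :
    qf (NQ ep A r p) c = ph D (pol c) r p + ep * qf A⁻¹ c := by
  unfold NQ
  rw [qf_add', qf_smul, qf_EQ]

variable {ep : ℝ} {A : Matrix (Mon M D) (Mon M D) ℝ} {r : ℝ} {p : Fin M → ℝ}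

theorem NQ_pdM (hep : 0 < ep) (hA : PdM A) : PdM (NQ ep A r p) := by
  refine ⟨(EQ_symm r p).add ((inv_symm hA).smul ep), fun x hx => ?_⟩
  have h1 := qf_NQ ep A r p x
  unfold qf at h1
  rw [h1]
  have h2 := ph_nonneg (D := D) (pol x) r p
  have h3 := mul_pos hep ((inv_pdM hA).2 x hx)
  linarith

/-- the size of the inverse -/
theorem phi_NQ (hep : 0 < ep) (hA : PdM A) : phi r (NQ ep A r p)⁻¹ p ≤ nn M D := by
  have hN := NQ_pdM (r := r) (p := p) hep hA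
  unfold phi
  rw [← card_nodes M D]
  have h1 : ∀ j ∈ (Finset.univ : Finset (Fin M → Fin (D + 1))),
      vv (nodp D p r j) ⬝ᵥ ((NQ ep A r p)⁻¹ *ᵥ vv (nodp D p r j)) ≤ 1 := by
    intro j _
    set v : Mon M D → ℝ := vv (nodp D p r j) with hv
    have h2 : qf (NQ ep A r p)⁻¹ v ≤ 1 := by
      apply qf_inv_le hN zero_le_one
      intro z
      rw [one_mul, qf_NQ]
      have h3 : (v ⬝ᵥ z) ^ 2 ≤ ph D (pol z) r p := by
        have h4 : (MvPolynomial.eval (nodp D p r j) (pol z)) ^ 2 ≤ ph D (pol z) r p :=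
          Finset.single_le_sum (f := fun j => (MvPolynomial.eval (nodp D p r j) (pol z)) ^ 2)
            (fun _ _ => sq_nonneg _) (Finset.mem_univ j)
        rwa [eval_pol, dotProduct_comm] at h4
      have h5 := mul_nonneg hep.le ((pd_psd (inv_pdM hA)).2 z)
      linarith
    exact h2
  refine (Finset.sum_le_card_nsmul _ _ 1 h1).trans (le_of_eq ?_)
  rw [nsmul_eq_mul, mul_one]

/-- the inverse of a form which is at least one -/
theorem inv_le_one (hA : PdM A) (h1 : ∀ x, x ⬝ᵥ x ≤ qf A x) (c : Mon M D → ℝ) : qf A⁻¹ c ≤ c ⬝ᵥ c := by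
  have h2 := inv_anti (N := (1 : Matrix (Mon M D) (Mon M D) ℝ)) Pool.Agent.Helper95.LF.PdM.one hA zero_le_one
    (fun x => by rw [qf_one, one_mul]; exact h1 x) c
  rwa [inv_one, qf_one, one_mul] at h2

theorem ph_le_one (c : Mon M D → ℝ) : ph D (pol c) r p ≤ phi r (1 : Matrix (Mon M D) (Mon M D) ℝ) p * (c ⬝ᵥ c) := by
  unfold ph phi
  rw [Finset.sum_mul]
  refine Finset.sum_le_sum fun j _ => ?_
  rw [eval_pol, Matrix.one_mulVec, mul_comm]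
  exact cs _ _

/-- the dual form is bounded -/
theorem NQ_le (hep : 0 ≤ ep) (hep1 : ep ≤ 1) (hA : PdM A) (h1 : ∀ x, x ⬝ᵥ x ≤ qf A x) {K0 : ℝ}
    (hK0 : phi r (1 : Matrix (Mon M D) (Mon M D) ℝ) p ≤ K0) (c : Mon M D → ℝ) :
    qf (NQ ep A r p) c ≤ (K0 + 1) * qf (1 : Matrix (Mon M D) (Mon M D) ℝ) c := by
  rw [qf_NQ, qf_one]
  have h2 := inv_le_one hA h1 c
  have h3 := ph_le_one (r := r) (p := p) c
  have h4 := dot_self_nonneg c
  have h5 := mul_le_mul_of_nonneg_right hK0 h4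
  have h6 : 0 ≤ qf A⁻¹ c := (pd_psd (inv_pdM hA)).2 c
  nlinarith

/-- the inverse is at least one, up to the constant -/
theorem NQ_ge (hep : 0 < ep) (hep1 : ep ≤ 1) (hA : PdM A) (h1 : ∀ x, x ⬝ᵥ x ≤ qf A x) {K0 : ℝ} (hK : 0 ≤ K0)
    (hK0 : phi r (1 : Matrix (Mon M D) (Mon M D) ℝ) p ≤ K0) (z : Mon M D → ℝ) :
    z ⬝ᵥ z ≤ (K0 + 1) * qf (NQ ep A r p)⁻¹ z := by
  have h2 := inv_anti (NQ_pdM (r := r) (p := p) hep hA) Pool.Agent.Helper95.LF.PdM.one (K := K0 + 1) (by linarith)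
    (NQ_le hep.le hep1 hA h1 hK0) z
  rwa [inv_one, qf_one] at h2

/-- functionals bounded by the form and small on the cell are bounded by the inverse -/
theorem NQ_fun (hep : 0 < ep) (hA : PdM A) {f : Mon M D → ℝ} (hf : ∀ z, (f ⬝ᵥ z) ^ 2 ≤ ep⁻¹ * qf A z)
    (hp : ph D (pol f) r p ≤ 1) (z : Mon M D → ℝ) : (f ⬝ᵥ z) ^ 2 ≤ 2 * qf (NQ ep A r p)⁻¹ z := by
  have hN := NQ_pdM (r := r) (p := p) hep hA
  refine (cs_inv hN f z).trans ?_
  apply mul_le_mul_of_nonneg_right _ ((pd_psd (inv_pdM hN)).2 z)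
  rw [qf_NQ]
  have h1 := qf_inv_le hA (inv_nonneg.mpr hep.le) hf
  have h2 := mul_le_mul_of_nonneg_left h1 hep.le
  rw [mul_inv_cancel₀ hep.ne'] at h2
  linarith

end

end

end Pool.Agent.Helper66.MT
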