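import Pool.Agent.Helper66.MT.Exg

/-! K-LABELS: AGREEMENT. A literal form of the point which is comparable, on an event of an extension, with forms known to
windows, gives an admissible K-form of the system on the event. -/

set_option autoImplicit false

namespace Pool.Agent.Helper66.MT

open Finset Filter Topology Matrix Pool.Agent.Helper69.RK Pool.Agent.Helper31.EC Pool.Agent.Helper31.EC.Sp
open Pool.Agent.Helper40.EL Pool.Agent.Helper89.LX Pool.Agent.Helper84.MT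
open Pool.Agent.Helper3.LF (typ_and typ_mono mkFD sp_Sub sp_n lb Mon phi)
open Pool.Agent.Helper59.LF (fadd fadd_leak ladd)
open Pool.Agent.Helper87.NSL (KnS Inv1 Inv2 TwoJ onG GAP cndR)

noncomputable section

/-! ### literal forms -/

/-- a literal form has no leak at a partition which knows it -/
theorem onG_leak {κ : Type} (F : FSp) (G : F.Ω → Matrix κ κ ℝ) (R : Setoid F.Ω)
    (h : ∀ ω ω', F.μ ω ≠ 0 → F.μ ω' ≠ 0 → F.Z ω ω' → R ω ω' → G ω = G ω') : (onG F G).l.leak (fc R) = 0 := by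
  unfold FLab.leak
  apply I_zero_of_le_left
  apply fc_le
  intro ω ω' h1 h2 hZ hR
  exact h ω ω' h1 h2 hZ hR

section

variable {T S : Sp} (p : Pj T S) (A : ∀ k, (T.F k).Ω → Prop)

/-- the extension restricted to the event, as a trivial label of the space on the event -/
def imT : Lab (Sp.im p A) := fun k => ⟨(T.F k).rest (A k), FSp.imp (p.fp k) (A k), p.hn k, ⊤⟩

theorem imT_v (k : ℕ) : (imT p A k).v = ⊥ := rfl

theorem imT_leak (k : ℕ) (x : FL ((Sp.im p A).F k)) : (imT p A k).leak x = 0 := by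
  unfold FLab.leak
  apply I_zero_of_le_left
  exact bot_le

theorem imT_DMf {κ : Type} (B : κ → Part (Sp.im p A)) : (imT p A).DMf B := by
  intro i
  show Tendsto _ _ _
  have h1 : (fun k => (imT p A k).leak (B i k) / ((Sp.im p A).F k).n) = fun _ => (0 : ℝ) := by
    funext k
    rw [imT_leak, zero_div]
  rw [h1]
  exact tendsto_const_nhds

variable {p A}

/-- points of the support come from points of the support -/
theorem lift_supp {T F : FSp} (p : FPj T F) (ω : F.Ω) (h0 : F.μ ω ≠ 0) : ∃ w, T.μ w ≠ 0 ∧ p.π w = ω := by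
  by_contra hc
  push Not at hc
  apply h0
  rw [← p.law, push_ind]
  apply Finset.sum_eq_zero
  intro w _
  by_cases h1 : p.π w = ω
  · by_cases h2 : T.μ w = 0
    · rw [h2, mul_zero]
    · exact absurd h1 (hc w h2)
  · rw [e1_ind_neg h1, zero_mul]

/-- an admissible form of the extension which is a function of the point is an admissible form of the space -/
theorem adf_imT {ι κ : Type} [Fintype ι] [DecidableEq ι] [Finite κ] (Φ : Gau (Sp.im p A) ι)
    {B : κ → Part (Sp.im p A)} (G : ∀ k, ((Sp.im p A).F k).Ω → Matrix ι ι ℝ) (g : ∀ k, (imT p A k).T.Ω → Matrix ι ι ℝ)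
    (hg : ∀ k ω, g k ω = G k (p.π k ω))
    (hm : ∀ k ω ω', (imT p A k).T.μ ω ≠ 0 → (imT p A k).T.μ ω' ≠ 0 →
      (fadd (imT p A k) (Setoid.ker (g k))).V ω ω' → (imT p A k).T.Z ω ω' → g k ω = g k ω')
    (h : Φ.Adf B (fun k => mkFD (fadd (imT p A k) (Setoid.ker (g k))) (g k) (hm k))) :
    Φ.Adf B (fun k => onG ((Sp.im p A).F k) (G k)) := by
  rw [adf_fm] at h ⊢
  obtain ⟨h1, h2⟩ := h
  refine ⟨fun i => ?_, fun η hη => ?_⟩
  · apply (h1 i).of_le (Eventually.of_forall fun k => FLab.leak_nonneg _ _)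
    refine Eventually.of_forall fun k => ?_
    have e0 : ∀ x : FL ((Sp.im p A).F k), (onG ((Sp.im p A).F k) (G k)).l.leak x =
        I (fc (Setoid.ker (G k))) (fc (Setoid.ker fun ω => ω)) x := by
      intro x
      induction x using fc_ind
      rfl
    have e1 : fc (F := (imT p A k).T) (Setoid.ker (g k)) = (imT p A k).p.map (fc (Setoid.ker (G k))) := by
      rw [(imT p A k).p.map_fc]
      apply le_antisymm
      · apply fc_le
        intro ω ω' _ _ _ e
        show g k ω = g k ω'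
        rw [hg, hg]
        exact e
      · apply fc_le
        intro ω ω' _ _ _ e
        show G k (p.π k ω) = G k (p.π k ω')
        rw [← hg, ← hg]
        exact e
    have e2 : (imT p A k).p.top = (imT p A k).p.map (fc (Setoid.ker fun ω => ω)) := rfl
    show (onG ((Sp.im p A).F k) (G k)).l.leak (B i k) ≤ _
    rw [e0, ← (imT p A k).p.I_map, ← e1, ← e2]
    apply I_mono_left
    refine le_trans ?_ le_sup_left
    apply fc_le
    intro ω ω' _ _ _ e
    exact e.2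
  · filter_upwards [h2 η hη] with k hk
    have key : ∀ N : ((Sp.im p A).F k).Ω → Prop, ((Sp.im p A).F k).pb N =
        (imT p A k).T.pb (fun w => N ((imT p A k).p.π w)) := fun N => (push_restμ (imT p A k).p N).2.symm
    have hcp : ∀ ω, ((Sp.im p A).F k).μ ω ≠ 0 → Cpd (Φ.cp k) (G k ω) := by
      intro ω hω
      obtain ⟨w, hw, hwω⟩ := lift_supp (imT p A k).p ω hω
      have h3 := (hk.1 w hw).1
      have h4 : g k w = G k ω := by
        rw [hg]
        exact congrArg (G k) hwω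
      have h5 : Cpd (Φ.cp k) (g k w) := h3
      rwa [h4] at h5
    have hph : (imT p A k).T.pb (fun w => ¬ Φ.φ k ((imT p A k).p.π w) (G k ((imT p A k).p.π w)) ≤
        2 ^ (η * ((Sp.im p A).F k).n)) ≤ η := by
      refine le_trans (FSp.pb_mono _ ?_) hk.2.1
      intro w _ h3 h4
      apply h3
      have h5 : Φ.φ k ((imT p A k).p.π w) (g k w) ≤ 2 ^ (η * ((Sp.im p A).F k).n) := h4
      rw [hg] at h5
      exact h5
    refine ⟨fun ω hω => ⟨hcp ω hω, hcp ω hω⟩, ?_, ?_⟩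
    · exact (key (fun ω => ¬ Φ.φ k ω (G k ω) ≤ 2 ^ (η * ((Sp.im p A).F k).n))).le.trans hph
    · exact (key (fun ω => ¬ Φ.φ k ω (G k ω) ≤ 2 ^ (η * ((Sp.im p A).F k).n))).le.trans hph

theorem imT_I (k : ℕ) (a b c : Setoid (T.F k).Ω) :
    I (fc (F := (imT p A k).T) a) (fc (F := (imT p A k).T) b) ((imT p A k).v ⊔ fc (F := (imT p A k).T) c) =
      I ((T.F k).rmap (A k) (fc a)) ((T.F k).rmap (A k) (fc b)) ((T.F k).rmap (A k) (fc c)) := by
  rw [imT_v, bot_sup_eq]
  rfl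

theorem imT_h (k : ℕ) (a b : Setoid (T.F k).Ω) :
    h (fc (F := (imT p A k).T) a) ((imT p A k).v ⊔ fc (F := (imT p A k).T) b) =
      h ((T.F k).rmap (A k) (fc a)) ((T.F k).rmap (A k) (fc b)) := by
  rw [imT_v, bot_sup_eq]
  rfl

theorem imT_hm (k : ℕ) (a : Setoid (T.F k).Ω) (x : FL (S.F k)) :
    h (fc (F := (imT p A k).T) a) ((imT p A k).v ⊔ (imT p A k).p.map (FSp.imap (p.fp k) (A k) x)) =
      h ((T.F k).rmap (A k) (fc a)) ((T.F k).rmap (A k) ((p.fp k).map x)) := by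
  rw [imT_v, bot_sup_eq]
  have h3 : (imT p A k).p.map (FSp.imap (p.fp k) (A k) x) = (T.F k).rmap (A k) ((p.fp k).map x) :=
    FSp.imp_imap (p.fp k) (A k) x
  rw [h3]
  rfl

/-- windows which know a form, on events -/
theorem Gk.mono {ν : Type} {A : ν → Prop} {I I' : ν → ν → ν → Prop} {K K' : ν → ν → Prop} (hI : ∀ a b c, I a b c → I' a b c)
    (hK : ∀ a b, K a b → K' a b) {j : ν} (h : Gk A I K j) : Gk A I' K' j := by
  induction h with
  | base i hi => exact Gk.base i hi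
  | step i i1 i2 _ _ h3 ih1 ih2 => exact Gk.step i i1 i2 ih1 ih2 (hI _ _ _ h3)
  | kn i j _ h3 ih => exact Gk.kn i j ih (hK _ _ h3)

theorem nul_rest {A : ∀ k, (T.F k).Ω → Prop} (hA : 0 < ul (T.pr A)) {B C : Part T}
    (h0 : Nul T (fun k => h (B k) (C k))) : Nul (Sp.im p A) (fun k => h ((T.F k).rmap (A k) (B k))
      ((T.F k).rmap (A k) (C k))) := by
  have h1 : Nul T (fun k => h ((T.F k).rmap (A k) (B k)) ((T.F k).rmap (A k) (C k))) :=
    Nul.div_pr (S := T) hA h0 (fun _ => h_nonneg _ _) (fun k => by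
      have h2 := (T.F k).rmap_h_le (A k) (B k) (C k)
      have h3 : T.pr A k = (T.F k).pb (A k) := rfl
      rw [h3]
      linarith)
  exact (Lab.nul_pj p).mp h1

theorem nulI_rest {A : ∀ k, (T.F k).Ω → Prop} (hA : 0 < ul (T.pr A)) {B C D : Part T}
    (h0 : Nul T (fun k => I (B k) (C k) (D k))) : Nul (Sp.im p A) (fun k => I ((T.F k).rmap (A k) (B k))
      ((T.F k).rmap (A k) (C k)) ((T.F k).rmap (A k) (D k))) := by
  have h1 : Nul T (fun k => I ((T.F k).rmap (A k) (B k)) ((T.F k).rmap (A k) (C k)) ((T.F k).rmap (A k) (D k))) :=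
    Nul.div_pr (S := T) hA h0 (fun _ => I_nonneg _ _ _) (fun k => (T.F k).rmap_I_le (A k) (B k) (C k) (D k))
  exact (Lab.nul_pj p).mp h1

/-- **AGREEMENT, core**: a function of the point which is comparable on the atoms of windows of an extension, on an event
of the extension -/
theorem agr_core {ι κ : Type} [Fintype ι] [DecidableEq ι] [Finite κ] (Φ : Gau S ι)
    (hmono : ∀ k ω, ∀ A B : Matrix ι ι ℝ, Psd A → Psd B → (∀ v, qf A v ≤ qf B v) → Φ.φ k ω A ≤ Φ.φ k ω B)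
    (hsmul : ∀ k ω (c : ℝ), ∀ A : Matrix ι ι ℝ, Φ.φ k ω (c • A) = c * Φ.φ k ω A) (p : Pj T S) (B : κ → Part S)
    (A : ∀ k, (T.F k).Ω → Prop) (hA : 0 < ul (T.pr A)) (X : ∀ k, (S.F k).Ω → Matrix ι ι ℝ) (P : ℕ → ℝ)
    (hP : ∀ k, 1 ≤ P k) (hX : ∀ᶠ k in UF, ∀ ω, (T.F k).μ ω ≠ 0 → A k ω → Cpd (Φ.cp k) (X k (p.π k ω)) ∧
      Φ.φ k (p.π k ω) (X k (p.π k ω)) ≤ P k) (R : ℕ → ℝ) (hR : ∀ k, 1 ≤ R k) {ν : Type}
    (W : ν → ∀ k, Setoid (T.F k).Ω) (Ad : ν → Prop)
    (hW : ∀ j, Ad j → ∀ᶠ k in UF, ∀ ω ω', (T.F k).μ ω ≠ 0 → (T.F k).μ ω' ≠ 0 → A k ω → A k ω' → (T.F k).Z ω ω' →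
      W j k ω ω' → ∀ v, qf (X k (p.π k ω)) v ≤ R k * qf (X k (p.π k ω')) v)
    (hcl : ∀ i, ∃ j, Gk Ad (fun i1 i2 i => Nul T (fun k => I (fc (W i1 k)) (fc (W i2 k)) (fc (W i k))))
      (fun j i => Nul T (fun k => h (fc (W j k)) (fc (W i k)))) j ∧
      Nul T (fun k => h (fc (W j k)) ((B i).pull p k))) :
    ∃ r : ℕ → Matrix ι ι ℝ → Matrix ι ι ℝ,
      (Φ.im p A).Adf (fun i => (B i).im p A) (fun k => onG ((Sp.im p A).F k) (fun ω => r k (X k ω))) ∧
      ∀ᶠ k in UF, ∀ ω, (T.F k).μ ω ≠ 0 → A k ω → ∀ v, qf (X k (p.π k ω)) v ≤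
        cR0 ι * R k ^ cR1 ι * P k * qf (r k (X k (p.π k ω))) v := by
  -- eventually the event has positive mass
  have hpos : ∀ᶠ k in UF, (T.F k).pb (A k) ≠ 0 := by
    filter_upwards [pr_half' hA] with k hk hc
    have h1 : T.pr A k = 0 := hc
    rw [h1] at hk
    linarith
  have hsup : ∀ᶠ k in UF, ∀ ω, (imT p A k).T.μ ω ≠ 0 → (T.F k).μ ω ≠ 0 ∧ A k ω := by
    filter_upwards [hpos] with k hk ω hω
    have h1 := (T.F k).rest_supp (A k) ω hω
    exact ⟨h1.1, h1.2 hk⟩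
  set G : ∀ k, (imT p A k).T.Ω → Matrix ι ι ℝ := fun k ω => X k (p.π k ω) with hG
  have e1 := exact_form2 (κ := κ) (Φ.im p A) hmono hsmul (fun i => (B i).im p A) (imT_DMf p A _) G (by
      filter_upwards [hX, hsup] with k a b ω hω
      obtain ⟨b1, b2⟩ := b ω hω
      exact (a ω b1 b2).1) (fun _ _ => True) P hP (by
      refine typ_mono (S := Lab.sp (imT p A)) typ_true ?_
      filter_upwards [hX, hsup] with k a b ω hω _ _
      obtain ⟨b1, b2⟩ := b ω hω
      exact (a ω b1 b2).2) R hR W Ad (by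
      intro j hj
      filter_upwards [hW j hj, hsup] with k a b ω ω' hω hω' _ _ _ hZ hw
      obtain ⟨b1, b2⟩ := b ω hω
      obtain ⟨c1, c2⟩ := b ω' hω'
      exact a ω ω' b1 c1 b2 c2 hZ hw) (by
      intro i
      obtain ⟨j, hj, hji⟩ := hcl i
      refine ⟨j, hj.mono ?_ ?_, ?_⟩
      · intro a b c h1
        have h2 := nulI_rest (p := p) hA h1
        refine h2.congr fun k => ?_
        exact congrArg (fun x => x / (S.F k).n) (imT_I (p := p) (A := A) k (W a k) (W b k) (W c k)).symm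
      · intro a b h1
        have h2 := nul_rest (p := p) hA h1
        refine h2.congr fun k => ?_
        exact congrArg (fun x => x / (S.F k).n) (imT_h (p := p) (A := A) k (W a k) (W b k)).symm
      · have h2 := nul_rest (p := p) hA hji
        refine h2.congr fun k => ?_
        exact congrArg (fun x => x / (S.F k).n) (imT_hm (p := p) (A := A) k (W j k) (B i k)).symm)
  obtain ⟨r, hm, h1, h2⟩ := e1
  refine ⟨r, ?_, ?_⟩
  · apply adf_imT (Φ.im p A) (fun k ω => r k (X k ω)) (fE (fun _ _ => True) r G) _ hm h1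
    intro k ω
    simp only [fE, if_true, hG]
  · filter_upwards [h2] with k a ω hω hAω v
    exact a ω ((T.F k).rest_supp' (A k) ω hω hAω) trivial v

/-! ### forms of systems -/

/-- the partitions of an extension: the point at the resolution `R` and the given windows -/
def WR (p : Pj T S) (R : ∀ k, Setoid (S.F k).Ω) {ν : Type} (W : ν → ∀ k, Setoid (T.F k).Ω) :
    Option ν → ∀ k, Setoid (T.F k).Ω
  | none => fun k => Setoid.comap (p.π k) (R k)
  | some j => W j

/-- the windows which know the form directly -/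
def AdO {ν : Type} (Ad : ν → Prop) : Option ν → Prop
  | none => True
  | some j => Ad j

/-- **[AGR]** a LITERAL form of the point at the resolution `R` which on an event of an extension is small at the point
and close to forms known to windows gives an admissible K-form of the space on the event -/
theorem agr_lit (M D : ℕ) : ∃ C : ℝ, 0 ≤ C ∧ ∀ (T S : Sp) (p : Pj T S) (Q : S.VV M) (κ : Type) (_ : Finite κ)
    (B : κ → Part S) (R : ∀ k, Setoid (S.F k).Ω) (e : ℝ) (A : ∀ k, (T.F k).Ω → Prop)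
    (X : ∀ k, (S.F k).Ω → Matrix (Mon M D) (Mon M D) ℝ) (ν : Type) (W : ν → ∀ k, Setoid (T.F k).Ω) (Ad : ν → Prop)
    (J : ν → ∀ k, (T.F k).Ω → Matrix (Mon M D) (Mon M D) ℝ), 0 < e → 0 < ul (T.pr A) →
    (∀ᶠ k in UF, ∀ ω ω', (S.F k).μ ω ≠ 0 → (S.F k).μ ω' ≠ 0 → (S.F k).Z ω ω' → R k ω ω' → X k ω = X k ω') →
    (∀ᶠ k in UF, ∀ ω, (T.F k).μ ω ≠ 0 → A k ω → Cpd ((gaq Q D).cp k) (X k (p.π k ω)) ∧
      phi (S.dl 1 k) (X k (p.π k ω)) (Q.v k (p.π k ω)) ≤ 2 ^ (e * (S.F k).n)) →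
    (∀ j, Ad j → ∀ᶠ k in UF, ∀ ω ω', (T.F k).μ ω ≠ 0 → (T.F k).μ ω' ≠ 0 → (T.F k).Z ω ω' → W j k ω ω' →
      J j k ω = J j k ω') →
    (∀ j, Ad j → ∀ᶠ k in UF, ∀ ω, (T.F k).μ ω ≠ 0 → A k ω → Nr (e * (S.F k).n) (J j k ω) (X k (p.π k ω))) →
    (∀ i, ∃ j, Gk (AdO Ad) (fun i1 i2 i => Nul T (fun k => I (fc (WR p R W i1 k)) (fc (WR p R W i2 k))
      (fc (WR p R W i k)))) (fun j i => Nul T (fun k => h (fc (WR p R W j k)) (fc (WR p R W i k)))) j ∧
      Nul T (fun k => h (fc (WR p R W j k)) ((B i).pull p k))) →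
    ∃ G : ∀ k, (S.F k).Ω → Matrix (Mon M D) (Mon M D) ℝ, (∀ k ω ω', X k ω = X k ω' → G k ω = G k ω') ∧
      (gaq (Q.im p A) D).AdfK (LC.kz (pof (S := Sp.im p A) R)) (fun i => (B i).im p A)
        (fun k => onG ((Sp.im p A).F k) (G k)) ∧
      ∀ᶠ k in UF, ∀ ω, (T.F k).μ ω ≠ 0 → A k ω → ∀ z, qf (X k (p.π k ω)) z ≤
        2 ^ (C * e * (S.F k).n) * qf (G k (p.π k ω)) z := by
  classical
  refine ⟨2 * cR1 (Mon M D) + 2, by positivity, ?_⟩
  intro T S p Q κ hfin B R e A X ν W Ad J he hA hlit hX hJ hN hcl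
  have hn := fun k => (S.F k).pos
  have hE1 : ∀ k, (1 : ℝ) ≤ 2 ^ (e * (S.F k).n) := fun k => Real.one_le_rpow (by norm_num) (mul_pos he (hn k)).le
  have hE2 : ∀ k, (1 : ℝ) ≤ 2 ^ (2 * e * (S.F k).n) := fun k => Real.one_le_rpow (by norm_num)
    (by have := mul_pos he (hn k); nlinarith)
  have hW : ∀ j, AdO Ad j → ∀ᶠ k in UF, ∀ ω ω', (T.F k).μ ω ≠ 0 → (T.F k).μ ω' ≠ 0 → A k ω → A k ω' →
      (T.F k).Z ω ω' → WR p R W j k ω ω' → ∀ v, qf (X k (p.π k ω)) v ≤ 2 ^ (2 * e * (S.F k).n) *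
        qf (X k (p.π k ω')) v := by
    rintro (_ | j) hj
    · filter_upwards [hlit, hX] with k a b ω ω' hω hω' _ hA' hZ hw v
      have h1 : X k (p.π k ω) = X k (p.π k ω') := a _ _ (p.supp k ω hω) (p.supp k ω' hω')
        ((p.hZ k ω ω' hω hω').mp hZ) hw
      have h2 : 0 ≤ qf (X k (p.π k ω')) v := (b ω' hω' hA').1.psd.2 v
      rw [h1]
      have := hE2 k
      nlinarith
    · filter_upwards [hJ j hj, hN j hj, hX] with k a b c ω ω' hω hω' hA1 hA2 hZ hw v
      have h1 : J j k ω = J j k ω' := a ω ω' hω hω' hZ hw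
      have h3 := (b ω hω hA1).2 v
      have h4 := (b ω' hω' hA2).1 v
      rw [h1] at h3
      have h5 : (0 : ℝ) < 2 ^ (e * (S.F k).n) := by positivity
      have h6 := mul_le_mul_of_nonneg_left h4 h5.le
      have e1 : (2 : ℝ) ^ (2 * e * (S.F k).n) = 2 ^ (e * (S.F k).n) * 2 ^ (e * (S.F k).n) := by
        rw [← Real.rpow_add (by norm_num)]
        congr 1
        ring
      rw [e1, mul_assoc]
      exact h3.trans h6
  obtain ⟨r, h1, h2⟩ := agr_core (gaq Q D) (fun k ω A B _ _ h => Pool.Agent.Helper3.LF.phi_mono _ h _)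
    (fun k ω c A => Pool.Agent.Helper3.LF.phi_smul _ _ _ _) p B A hA X (fun k => 2 ^ (e * (S.F k).n)) hE1 hX
    (fun k => 2 ^ (2 * e * (S.F k).n)) hE2 (WR p R W) (AdO Ad) hW hcl
  have h3 : (gaq (Q.im p A) D).Adf (fun i => (B i).im p A)
      (fun k => onG ((Sp.im p A).F k) (fun ω => r k (X k ω))) := by
    rw [gaq_im]
    exact h1
  refine ⟨fun k ω => r k (X k ω), fun k ω ω' h => by show r k (X k ω) = r k (X k ω'); rw [h], ⟨h3, ?_⟩, ?_⟩
  · show ∀ᶠ k in UF, (onG ((Sp.im p A).F k) (fun ω => r k (X k ω))).l.leak (pof (S := Sp.im p A) R k) = 0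
    filter_upwards [hlit] with k a
    apply onG_leak
    intro ω ω' hω hω' hZ hR
    show r k (X k ω) = r k (X k ω')
    rw [a ω ω' (FSp.im_supp (p.fp k) (A k) ω hω) (FSp.im_supp (p.fp k) (A k) ω' hω') hZ hR]
  · filter_upwards [h2, (adf_fm.mp h3).2 1 one_pos, pr_half' hA,
      (S.Sub_const (zero_le_one.trans (cR0_one (Mon M D)))).eventually_le he] with k a b b' d ω hω hAω z
    have h6 := a ω hω hAω z
    have hpb : (T.F k).pb (A k) ≠ 0 := by
      intro hc
      have h7 : T.pr A k = 0 := hc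
      rw [h7] at b'
      linarith
    have h8 : ((Sp.im p A).F k).μ (p.π k ω) ≠ 0 := by
      have h9 := (T.F k).rest_supp' (A k) ω hω hAω
      exact (FSp.imp (p.fp k) (A k)).supp ω h9
    have h7 : 0 ≤ qf (r k (X k (p.π k ω))) z := (b.1 (p.π k ω) h8).1.psd.2 z
    refine h6.trans ?_
    apply mul_le_mul_of_nonneg_right _ h7
    have hc : cR0 (Mon M D) ≤ 2 ^ (e * (S.F k).n) := by linarith
    have e1 : (2 : ℝ) ^ ((2 * (cR1 (Mon M D) : ℝ) + 2) * e * (S.F k).n) =
        2 ^ (e * (S.F k).n) * (2 ^ (2 * e * (S.F k).n)) ^ (cR1 (Mon M D)) * 2 ^ (e * (S.F k).n) := by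
      rw [← Real.rpow_natCast, ← Real.rpow_mul (by norm_num), ← Real.rpow_add (by norm_num),
        ← Real.rpow_add (by norm_num)]
      congr 1
      ring
    rw [e1]
    apply mul_le_mul_of_nonneg_right _ (by positivity)
    exact mul_le_mul_of_nonneg_right hc (by positivity)

end

end

end Pool.Agent.Helper66.MT
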