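import Pool.Agent.Helper66.MT.Agr
import Pool.Agent.Helper38.NSL.Tr

/-! K-LABELS: AGREEMENT of a K-label with forms known to windows: the K-form becomes literal. -/

set_option autoImplicit false

namespace Pool.Agent.Helper66.MT

open Finset Filter Topology Matrix Pool.Agent.Helper69.RK Pool.Agent.Helper31.EC Pool.Agent.Helper31.EC.Sp
open Pool.Agent.Helper40.EL Pool.Agent.Helper89.LX Pool.Agent.Helper84.MT
open Pool.Agent.Helper3.LF (typ_and typ_mono mkFD sp_Sub sp_n lb Mon phi)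
open Pool.Agent.Helper87.NSL (KnS Inv1 Inv2 TwoJ onG GAP cndR)
open Pool.Agent.Helper38.NSL (sel_var wn)

noncomputable section

/-- a variable of an extension which only depends on a partition of the space and the base -/
theorem desc {T F : FSp} (p : FPj T F) (R : Setoid F.Ω) {β : Type} [Nonempty β] (Y : T.Ω → β)
    (hY : ∀ w w', T.μ w ≠ 0 → T.μ w' ≠ 0 → R (p.π w) (p.π w') → T.Z w w' → Y w = Y w') :
    ∃ X : F.Ω → β, (∀ ω ω', R ω ω' → F.Z ω ω' → X ω = X ω') ∧ ∀ w, T.μ w ≠ 0 → X (p.π w) = Y w := by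
  classical
  set RZ : Setoid F.Ω := R ⊓ F.Z with hRZ
  set X : F.Ω → β := fun ω => if hx : ∃ w, T.μ w ≠ 0 ∧ RZ (p.π w) (Quotient.mk RZ ω).out then
    Y hx.choose else Classical.arbitrary β with hX
  refine ⟨X, fun ω ω' hR hZ => ?_, fun w h0 => ?_⟩
  · have h1 : Quotient.mk RZ ω = Quotient.mk RZ ω' := Quotient.sound ⟨hR, hZ⟩
    simp only [hX, h1]
  · have h1 : RZ (p.π w) (Quotient.mk RZ (p.π w)).out := by
      have h2 : Quotient.mk RZ (Quotient.mk RZ (p.π w)).out = Quotient.mk RZ (p.π w) := Quotient.out_eq _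
      exact RZ.symm' (Quotient.exact h2)
    have hx : ∃ w', T.μ w' ≠ 0 ∧ RZ (p.π w') (Quotient.mk RZ (p.π w)).out := ⟨w, h0, h1⟩
    simp only [hX, dif_pos hx]
    have h3 := hx.choose_spec
    have h4 : RZ (p.π hx.choose) (p.π w) := RZ.trans' h3.2 (RZ.symm' h1)
    exact hY _ _ h3.1 h0 h4.1 ((p.hZ _ _ h3.1 h0).mpr h4.2)

variable {T S : Sp}

/-- **SELECTION** for K-labels of an extension: a value of the label as a literal function of the point -/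
theorem sel_lit (p : Pj T S) (R : ∀ k, Setoid (S.F k).Ω) (l : Lab T)
    (hl : (LC.kz (fun k => fc (Setoid.comap (p.π k) (R k)))).ev l) {β : Type} [Nonempty β]
    (Y : ∀ k, (l k).T.Ω → β) (hY : ∀ᶠ k in UF, ∀ τ τ', (l k).T.μ τ ≠ 0 → (l k).T.μ τ' ≠ 0 → (l k).V τ τ' →
      (l k).T.Z τ τ' → Y k τ = Y k τ') (N : ∀ k, (T.F k).Ω → β → Prop) :
    ∃ X : ∀ k, (S.F k).Ω → β, (∀ k ω ω', R k ω ω' → (S.F k).Z ω ω' → X k ω = X k ω') ∧
      (∀ᶠ k in UF, ∀ ω, (T.F k).μ ω ≠ 0 → ∃ τ, (l k).T.μ τ ≠ 0 ∧ X k (p.π k ω) = Y k τ ∧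
        R k (p.π k ((l k).p.π τ)) (p.π k ω) ∧ (T.F k).Z ((l k).p.π τ) ω) ∧
      ∀ᶠ k in UF, (T.F k).pb (fun ω => ¬ N k ω (X k (p.π k ω))) ≤
        (l k).T.pb (fun τ => ¬ N k ((l k).p.π τ) (Y k τ)) := by
  classical
  have h1 : ∀ k, ∃ X : (S.F k).Ω → β, (∀ ω ω', R k ω ω' → (S.F k).Z ω ω' → X ω = X ω') ∧
      ((l k).leak (fc (Setoid.comap (p.π k) (R k))) = 0 →
        (∀ τ τ', (l k).T.μ τ ≠ 0 → (l k).T.μ τ' ≠ 0 → (l k).V τ τ' → (l k).T.Z τ τ' → Y k τ = Y k τ') →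
        (∀ ω, (T.F k).μ ω ≠ 0 → ∃ τ, (l k).T.μ τ ≠ 0 ∧ X (p.π k ω) = Y k τ ∧
          R k (p.π k ((l k).p.π τ)) (p.π k ω) ∧ (T.F k).Z ((l k).p.π τ) ω) ∧
        (T.F k).pb (fun ω => ¬ N k ω (X (p.π k ω))) ≤ (l k).T.pb (fun τ => ¬ N k ((l k).p.π τ) (Y k τ))) := by
    intro k
    by_cases hc : (l k).leak (fc (Setoid.comap (p.π k) (R k))) = 0 ∧
        (∀ τ τ', (l k).T.μ τ ≠ 0 → (l k).T.μ τ' ≠ 0 → (l k).V τ τ' → (l k).T.Z τ τ' → Y k τ = Y k τ')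
    · obtain ⟨X0, a1, a2, a3⟩ := sel_var (l k) (Setoid.comap (p.π k) (R k)) hc.1 (Y k) hc.2 (N k)
      obtain ⟨X, b1, b2⟩ := desc (p.fp k) (R k) X0 (fun w w' _ _ hR hZ => a1 w w' hR hZ)
      refine ⟨X, b1, fun _ _ => ⟨fun ω hω => ?_, ?_⟩⟩
      · obtain ⟨τ, c1, c2, c3, c4⟩ := a2 ω hω
        exact ⟨τ, c1, (b2 ω hω).trans c2, c3, c4⟩
      · refine le_trans (FSp.pb_mono _ ?_) a3
        intro ω hω h2 h3
        apply h2
        have h4 : X (p.π k ω) = X0 ω := b2 ω hω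
        rw [h4]
        exact h3
    · exact ⟨fun _ => Classical.arbitrary β, fun _ _ _ _ => rfl, fun h2 h3 => absurd ⟨h2, h3⟩ hc⟩
  choose X hX using h1
  refine ⟨X, fun k => (hX k).1, ?_, ?_⟩
  · filter_upwards [hl, hY] with k a b
    exact ((hX k).2 a b).1
  · filter_upwards [hl, hY] with k a b
    exact ((hX k).2 a b).2

/-- **[AGR] FOR A K-LABEL**: on an event of the space of a K-label of an extension (leak EXACTLY 0 at the point at the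
resolution `R`), its form is small at the point and close to forms known to windows. Then on an event of the extension,
not less probable, a LITERAL form of the point has the same properties, and it is dominated by an admissible K-form. -/
theorem agr_lab (M D : ℕ) : ∃ C : ℝ, 0 ≤ C ∧ ∀ (T S : Sp) (p : Pj T S) (Q : S.VV M) (κ : Type) (_ : Finite κ)
    (B : κ → Part S) (R : ∀ k, Setoid (S.F k).Ω) (e : ℝ) (l : Lab T)
    (J' : ∀ k, (l k).T.Ω → Matrix (Mon M D) (Mon M D) ℝ) (Ev : ∀ k, (l k).T.Ω → Prop) (ν : Type)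
    (W : ν → ∀ k, Setoid (T.F k).Ω) (Ad : ν → Prop) (J : ν → ∀ k, (T.F k).Ω → Matrix (Mon M D) (Mon M D) ℝ),
    0 < e → 0 < ul (l.sp.pr Ev) → (LC.kz (fun k => fc (Setoid.comap (p.π k) (R k)))).ev l →
    (∀ᶠ k in UF, ∀ τ τ', (l k).T.μ τ ≠ 0 → (l k).T.μ τ' ≠ 0 → (l k).V τ τ' → (l k).T.Z τ τ' → J' k τ = J' k τ') →
    (∀ᶠ k in UF, ∀ τ, (l k).T.μ τ ≠ 0 → Cpd ((gaq Q D).cp k) (J' k τ)) →
    (∀ᶠ k in UF, ∀ τ, (l k).T.μ τ ≠ 0 → Ev k τ →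
      phi (S.dl 1 k) (J' k τ) (Q.v k (p.π k ((l k).p.π τ))) ≤ 2 ^ (e * (S.F k).n) ∧
      ∀ j, Ad j → Nr (e * (S.F k).n) (J j k ((l k).p.π τ)) (J' k τ)) →
    (∀ j, Ad j → ∀ᶠ k in UF, ∀ ω ω', (T.F k).μ ω ≠ 0 → (T.F k).μ ω' ≠ 0 → (T.F k).Z ω ω' → W j k ω ω' →
      J j k ω = J j k ω') →
    (∀ i, ∃ j, Gk (AdO Ad) (fun i1 i2 i => Nul T (fun k => I (fc (WR p R W i1 k)) (fc (WR p R W i2 k))
      (fc (WR p R W i k)))) (fun j i => Nul T (fun k => h (fc (WR p R W j k)) (fc (WR p R W i k)))) j ∧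
      Nul T (fun k => h (fc (WR p R W j k)) ((B i).pull p k))) →
    ∃ (A : ∀ k, (T.F k).Ω → Prop) (X G : ∀ k, (S.F k).Ω → Matrix (Mon M D) (Mon M D) ℝ),
      0 < ul (T.pr A) ∧ (∀ᶠ k in UF, (l k).T.pb (Ev k) ≤ (T.F k).pb (A k)) ∧
      (∀ k ω ω', R k ω ω' → (S.F k).Z ω ω' → X k ω = X k ω' ∧ G k ω = G k ω') ∧
      (∀ᶠ k in UF, ∀ ω, (T.F k).μ ω ≠ 0 → ∃ τ, (l k).T.μ τ ≠ 0 ∧ X k (p.π k ω) = J' k τ ∧
        R k (p.π k ((l k).p.π τ)) (p.π k ω) ∧ (T.F k).Z ((l k).p.π τ) ω) ∧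
      (∀ k ω, A k ω → phi (S.dl 1 k) (X k (p.π k ω)) (Q.v k (p.π k ω)) ≤ 2 ^ (e * (S.F k).n) ∧
        ∀ j, Ad j → Nr (e * (S.F k).n) (J j k ω) (X k (p.π k ω))) ∧
      (gaq (Q.im p A) D).AdfK (LC.kz (pof (S := Sp.im p A) R)) (fun i => (B i).im p A)
        (fun k => onG ((Sp.im p A).F k) (G k)) ∧
      ∀ᶠ k in UF, ∀ ω, (T.F k).μ ω ≠ 0 → A k ω → ∀ z, qf (X k (p.π k ω)) z ≤
        2 ^ (C * e * (S.F k).n) * qf (G k (p.π k ω)) z := by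
  classical
  obtain ⟨C, hC, hagr⟩ := agr_lit M D
  refine ⟨C, hC, ?_⟩
  intro T S p Q κ hfin B R e l J' Ev ν W Ad J he hEv hl hY hcp hev hJ hcl
  obtain ⟨X, hX1, hX2, hX3⟩ := sel_lit p R l hl J' hY (fun k ω Y =>
    phi (S.dl 1 k) Y (Q.v k (p.π k ω)) ≤ 2 ^ (e * (S.F k).n) ∧ ∀ j, Ad j → Nr (e * (S.F k).n) (J j k ω) Y)
  set A : ∀ k, (T.F k).Ω → Prop := fun k ω =>
    phi (S.dl 1 k) (X k (p.π k ω)) (Q.v k (p.π k ω)) ≤ 2 ^ (e * (S.F k).n) ∧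
      ∀ j, Ad j → Nr (e * (S.F k).n) (J j k ω) (X k (p.π k ω)) with hA
  have hpb : ∀ᶠ k in UF, (l k).T.pb (Ev k) ≤ (T.F k).pb (A k) := by
    filter_upwards [hX3, hev] with k a b
    have h1 := (T.F k).pb_add_compl (A k)
    have h2 := (l k).T.pb_add_compl (Ev k)
    have h3 : (l k).T.pb (fun τ => ¬ (phi (S.dl 1 k) (J' k τ) (Q.v k (p.π k ((l k).p.π τ))) ≤ 2 ^ (e * (S.F k).n) ∧
        ∀ j, Ad j → Nr (e * (S.F k).n) (J j k ((l k).p.π τ)) (J' k τ))) ≤ (l k).T.pb (fun τ => ¬ Ev k τ) := by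
      apply FSp.pb_mono
      intro τ hτ h4 h5
      exact h4 (b τ hτ h5)
    have h4 := a.trans h3
    have h5 : (T.F k).pb (fun ω => ¬ A k ω) ≤ (l k).T.pb (fun τ => ¬ Ev k τ) := h4
    linarith
  have hA0 : 0 < ul (T.pr A) := by
    refine hEv.trans_le ?_
    exact ul_mono (UB_pr (S := l.sp) Ev) (UB_pr (S := T) A) hpb
  obtain ⟨G, g1, g2, g3⟩ := hagr T S p Q κ hfin B R e A X ν W Ad J he hA0 (Eventually.of_forall
      fun k ω ω' _ _ hZ hR => hX1 k ω ω' hR hZ) (by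
    filter_upwards [hX2, hcp] with k a b ω hω hAω
    obtain ⟨τ, c1, c2, _, _⟩ := a ω hω
    refine ⟨?_, hAω.1⟩
    rw [c2]
    exact b τ c1) hJ (fun j hj => Eventually.of_forall fun k ω _ hAω => hAω.2 j hj) hcl
  refine ⟨A, X, G, hA0, hpb, fun k ω ω' hR hZ => ⟨hX1 k ω ω' hR hZ, g1 k ω ω' (hX1 k ω ω' hR hZ)⟩, hX2,
    fun k ω hω => hω, g2, g3⟩

/-! ### one system -/

/-- windows of the types of a system which know a form: directly, or by (Inv1), or because the window is known to them -/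
theorem cl_sys {M : ℕ} {E : ℕ → ℕ} {ι : Type} (s : MSys S M E ι) (R : ∀ k, Setoid (S.F k).Ω) (c : ℝ) (Ad : ι → Prop)
    (hd : ∀ i, Ad i ∨ (∃ v, Ad v ∧ Inv1 s R c v i) ∨ ∃ v, Ad v ∧ Nul S (fun k => h ((s.lf v).win c k) ((s.lf i).win c k)))
    (i : Option ι) : ∃ j, Gk (AdO Ad) (fun i1 i2 i => Nul S (fun k => I (fc (WR (Pj.id S) R (fun i k => wn s c i k) i1 k))
      (fc (WR (Pj.id S) R (fun i k => wn s c i k) i2 k)) (fc (WR (Pj.id S) R (fun i k => wn s c i k) i k))))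
      (fun j i => Nul S (fun k => h (fc (WR (Pj.id S) R (fun i k => wn s c i k) j k))
        (fc (WR (Pj.id S) R (fun i k => wn s c i k) i k)))) j ∧
      Nul S (fun k => h (fc (WR (Pj.id S) R (fun i k => wn s c i k) j k)) ((cndR s R c i).pull (Pj.id S) k)) := by
  have hz : ∀ (X : ∀ k, FL (S.F k)), Nul S (fun k => h (X k) (X k)) := by
    intro X
    have e : (fun k => h (X k) (X k)) = fun _ => (0 : ℝ) := by
      funext k
      exact h_zero le_rfl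
    rw [e]
    exact Nul_zero S
  rcases i with _ | i
  · exact ⟨none, Gk.base _ trivial, hz (fun k => fc (Setoid.comap ((Pj.id S).π k) (R k)))⟩
  · refine ⟨some i, ?_, hz (fun k => fc (wn s c i k))⟩
    rcases hd i with h1 | ⟨v, h1, h2⟩ | ⟨v, h1, h2⟩
    · exact Gk.base _ h1
    · exact Gk.step _ (some v) none (Gk.base _ h1) (Gk.base _ trivial) h2
    · exact Gk.kn _ (some v) (Gk.base _ h1) h2

/-- **[AGR] for one system**: a K-label of the space which agrees with forms known to the windows of the types `Ad` -/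
theorem agr_sys (M D : ℕ) : ∃ C : ℝ, 0 ≤ C ∧ ∀ (S : Sp) (E : ℕ → ℕ) (ι : Type) (_ : Finite ι) (s : MSys S M E ι)
    (R : ∀ k, Setoid (S.F k).Ω) (c e : ℝ) (l : Lab S) (J' : ∀ k, (l k).T.Ω → Matrix (Mon M D) (Mon M D) ℝ)
    (Ev : ∀ k, (l k).T.Ω → Prop) (Ad : ι → Prop) (J : ι → ∀ k, (S.F k).Ω → Matrix (Mon M D) (Mon M D) ℝ),
    0 < e → 0 < ul (l.sp.pr Ev) → (LC.kz (pof R)).ev l →
    (∀ᶠ k in UF, ∀ τ τ', (l k).T.μ τ ≠ 0 → (l k).T.μ τ' ≠ 0 → (l k).V τ τ' → (l k).T.Z τ τ' → J' k τ = J' k τ') →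
    (∀ᶠ k in UF, ∀ τ, (l k).T.μ τ ≠ 0 → Cpd ((gaq s.Q D).cp k) (J' k τ)) →
    (∀ᶠ k in UF, ∀ τ, (l k).T.μ τ ≠ 0 → Ev k τ →
      phi (S.dl 1 k) (J' k τ) (s.Q.v k ((l k).p.π τ)) ≤ 2 ^ (e * (S.F k).n) ∧
      ∀ v, Ad v → Nr (e * (S.F k).n) (J v k ((l k).p.π τ)) (J' k τ)) →
    (∀ v, Ad v → KnS (fun k => wn s c v k) (J v)) →
    (∀ i, Ad i ∨ (∃ v, Ad v ∧ Inv1 s R c v i) ∨
      ∃ v, Ad v ∧ Nul S (fun k => h ((s.lf v).win c k) ((s.lf i).win c k))) →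
    ∃ (A : ∀ k, (S.F k).Ω → Prop) (hA : 0 < ul (S.pr A)) (X G : ∀ k, (S.F k).Ω → Matrix (Mon M D) (Mon M D) ℝ),
      (∀ᶠ k in UF, (l k).T.pb (Ev k) ≤ (S.F k).pb (A k)) ∧
      (∀ k ω ω', R k ω ω' → (S.F k).Z ω ω' → X k ω = X k ω' ∧ G k ω = G k ω') ∧
      (∀ᶠ k in UF, ∀ ω, (S.F k).μ ω ≠ 0 → ∃ τ, (l k).T.μ τ ≠ 0 ∧ X k ω = J' k τ ∧
        R k ((l k).p.π τ) ω ∧ (S.F k).Z ((l k).p.π τ) ω) ∧
      (∀ k ω, A k ω → phi (S.dl 1 k) (X k ω) (s.Q.v k ω) ≤ 2 ^ (e * (S.F k).n) ∧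
        ∀ v, Ad v → Nr (e * (S.F k).n) (J v k ω) (X k ω)) ∧
      (gaq (s.im (Pj.id S) A hA).Q D).AdfK (LC.kz (pof (S := Sp.im (Pj.id S) A) R))
        (cndR (s.im (Pj.id S) A hA) R c) (fun k => onG ((Sp.im (Pj.id S) A).F k) (G k)) ∧
      ∀ᶠ k in UF, ∀ ω, (S.F k).μ ω ≠ 0 → A k ω → ∀ z, qf (X k ω) z ≤ 2 ^ (C * e * (S.F k).n) * qf (G k ω) z := by
  obtain ⟨C, hC, hagr⟩ := agr_lab M D
  refine ⟨C, hC, ?_⟩
  intro S E ι hfin s R c e l J' Ev Ad J he hEv hl hY hcp hev hJ hcl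
  obtain ⟨A, X, G, a1, a2, a3, a4, a5, a6, a7⟩ := hagr S S (Pj.id S) s.Q (Option ι) inferInstance (cndR s R c) R e l J' Ev
    ι (fun i k => wn s c i k) Ad J he hEv hl hY hcp hev (fun v hv => by
      filter_upwards [hJ v hv] with k a ω ω' h1 h2 h3 h4
      exact a ω ω' h1 h2 h3 h4) (cl_sys s R c Ad hcl)
  refine ⟨A, a1, X, G, a2, a3, a4, a5, ?_, a7⟩
  have e1 : cndR (s.im (Pj.id S) A a1) R c = fun i => (cndR s R c i).im (Pj.id S) A := by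
    funext i
    rcases i with _ | i <;> rfl
  rw [e1]
  exact a6

end

end Pool.Agent.Helper66.MT
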