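import Pool.Agent.Helper3.LF.PhiRem
import Pool.Agent.Helper3.LF.Adm

/-! REMEZ ON CUBES in the exact entropy calculus (windows of leaves): a nonnegative polynomial which is a function of
`B` up to subexponential factors, evaluated at a vector variable `Y` of full entropy between the levels `c` and `l`
given `B`. -/

set_option autoImplicit false

namespace Pool.Agent.Helper66.MT

open Finset Filter Topology Pool.Agent.Helper69.RK Pool.Agent.Helper31.EC Pool.Agent.Helper31.EC.Sp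
open Pool.Agent.Helper3.LF MvPolynomial

noncomputable section

variable {S : Sp}

/-- the cells of level `l` of the coordinates in `s` -/
def oth {e : ℕ} (Y : S.VV e) (l : ℝ) (s : Finset (Fin e)) (k : ℕ) : Setoid (S.F k).Ω :=
  Setoid.ker (fun ω (i : s) => Y.cellv l k ω i)

theorem oth_rel {e : ℕ} (Y : S.VV e) (l : ℝ) (s : Finset (Fin e)) (k : ℕ) (ω ω' : (S.F k).Ω) :
    oth Y l s k ω ω' ↔ ∀ i ∈ s, Y.cellv l k ω i = Y.cellv l k ω' i := by
  constructor
  · intro h i hi
    exact congrFun h ⟨i, hi⟩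
  · intro h
    show (fun (i : s) => Y.cellv l k ω i) = fun (i : s) => Y.cellv l k ω' i
    funext i
    exact h i.1 i.2

theorem co_rel {e : ℕ} (Y : S.VV e) (l : ℝ) (i : Fin e) (k : ℕ) (ω ω' : (S.F k).Ω) :
    Setoid.ker ((Y.co i).cellv l k) ω ω' ↔ Y.cellv l k ω i = Y.cellv l k ω' i := by
  constructor
  · intro h
    exact congrFun h 0
  · intro h
    show (Y.co i).cellv l k ω = (Y.co i).cellv l k ω'
    funext j
    exact h

/-- the rate of one coordinate -/
def rho (S : Sp) (K : ℕ → ℝ) (c l : ℝ) (k : ℕ) : ℝ := (l - c) + Real.logb 2 (K k + 2) / (S.F k).n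

/-- one coordinate has at most the entropy `l - c` -/
theorem rt_co_le {e : ℕ} (Y : S.VV e) (c l : ℝ) (hcl : c ≤ l) (B : ∀ k, Setoid (S.F k).Ω) (K : ℕ → ℝ) (k : ℕ)
    (hK : 0 ≤ K k) (hwin : ∀ ω ω', (S.F k).μ ω ≠ 0 → (S.F k).μ ω' ≠ 0 → B k ω' ω → (S.F k).Z ω' ω →
      ∀ i, |Y.v k ω' i - Y.v k ω i| ≤ K k * S.dl c k) (i : Fin e) :
    S.rt (fun k => Setoid.ker ((Y.co i).cellv l k)) B k ≤ rho S K c l k := by
  have hn := (S.F k).pos
  have hp : (1 : ℝ) ≤ 2 ^ ((l - c) * (S.F k).n) :=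
    Real.one_le_rpow (by norm_num) (mul_nonneg (sub_nonneg.2 hcl) hn.le)
  have h1 := (S.F k).e_int_le ((Y.co i).cellv l k) (B k ⊓ (S.F k).Z) (K k * 2 ^ ((l - c) * (S.F k).n) + 1)
    (by positivity) (by
      intro ω ω' a a' b j
      have h2 := hwin ω' ω a' a b.1 b.2 i
      have h3 : S.dl c k = 2 ^ ((l - c) * (S.F k).n) * S.dl l k := by
        unfold Sp.dl
        rw [← Real.rpow_add (by norm_num : (0 : ℝ) < 2)]
        congr 1; ring
      rw [h3, ← mul_assoc] at h2
      exact floor_diff (S.dl_pos l k) h2)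
  have h4 : Real.logb 2 (K k * 2 ^ ((l - c) * (S.F k).n) + 1 + 1) ≤
      Real.logb 2 (K k + 2) + (l - c) * (S.F k).n := by
    have h5 : K k * 2 ^ ((l - c) * (S.F k).n) + 1 + 1 ≤ (K k + 2) * 2 ^ ((l - c) * (S.F k).n) := by nlinarith
    calc _ ≤ Real.logb 2 ((K k + 2) * 2 ^ ((l - c) * (S.F k).n)) :=
          Real.logb_le_logb_of_le (by norm_num) (by positivity) h5
      _ = _ := by
          rw [Real.logb_mul (by positivity) (by positivity), Real.logb_rpow (by norm_num) (by norm_num)]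
  rw [Nat.cast_one, one_mul] at h1
  unfold Sp.rt rho
  rw [div_le_iff₀ hn, add_mul, div_mul_cancel₀ _ hn.ne']
  exact (h1.trans h4).trans (le_of_eq (add_comm _ _))

/-- several coordinates -/
theorem rt_oth_le {e : ℕ} (Y : S.VV e) (c l : ℝ) (hcl : c ≤ l) (B : ∀ k, Setoid (S.F k).Ω) (K : ℕ → ℝ) (k : ℕ)
    (hK : 0 ≤ K k) (hwin : ∀ ω ω', (S.F k).μ ω ≠ 0 → (S.F k).μ ω' ≠ 0 → B k ω' ω → (S.F k).Z ω' ω →
      ∀ i, |Y.v k ω' i - Y.v k ω i| ≤ K k * S.dl c k) (s : Finset (Fin e)) :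
    S.rt (oth Y l s) B k ≤ s.card * rho S K c l k := by
  classical
  induction s using Finset.induction_on with
  | empty =>
    rw [Finset.card_empty, Nat.cast_zero, zero_mul]
    apply le_of_eq
    apply rt_zero
    intro ω ω' _
    rw [oth_rel]
    intro i hi
    exact absurd hi (Finset.notMem_empty i)
  | insert i s hi ih =>
    have h1 := rt_chain (S := S) (oth Y l s) (fun k => Setoid.ker ((Y.co i).cellv l k)) B k
    have h2 : S.rt (oth Y l (insert i s)) B k =
        S.rt (fun k => oth Y l s k ⊓ Setoid.ker ((Y.co i).cellv l k)) B k := by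
      unfold Sp.rt
      congr 2
      ext ω ω'
      constructor
      · intro h
        rw [oth_rel] at h
        exact ⟨(oth_rel _ _ _ _ _ _).2 fun j hj => h j (Finset.mem_insert_of_mem hj),
          (co_rel _ _ _ _ _ _).2 (h i (Finset.mem_insert_self i s))⟩
      · rintro ⟨a, b⟩
        rw [oth_rel]
        intro j hj
        rcases Finset.mem_insert.1 hj with h | h
        · rw [h]; exact (co_rel _ _ _ _ _ _).1 b
        · exact (oth_rel _ _ _ _ _ _).1 a j h
    have h3 := rt_co_le Y c l hcl (fun k => oth Y l s k ⊓ B k) K k hK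
      (fun ω ω' a a' b b' => hwin ω ω' a a' b.2 b') i
    rw [h2, h1, Finset.card_insert_of_notMem hi]
    push_cast
    linarith

/-- the conditional entropy of one coordinate given the others is full -/
theorem rt_last {e : ℕ} (Y : S.VV e) (c l : ℝ) (hcl : c ≤ l) (B : ∀ k, Setoid (S.F k).Ω) (K : ℕ → ℝ) (k : ℕ)
    (hK : 0 ≤ K k) (hwin : ∀ ω ω', (S.F k).μ ω ≠ 0 → (S.F k).μ ω' ≠ 0 → B k ω' ω → (S.F k).Z ω' ω →
      ∀ i, |Y.v k ω' i - Y.v k ω i| ≤ K k * S.dl c k) (η : ℝ)
    (hent : e * (l - c) - η ≤ S.rt (fun k => Setoid.ker (Y.cellv l k)) B k) (i : Fin e) :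
    l - c - (η + e * (Real.logb 2 (K k + 2) / (S.F k).n)) ≤
      S.rt (fun k => Setoid.ker ((Y.co i).cellv l k)) (fun k => oth Y l (univ.erase i) k ⊓ B k) k := by
  classical
  have hn := (S.F k).pos
  have h1 := rt_chain (S := S) (oth Y l (univ.erase i)) (fun k => Setoid.ker ((Y.co i).cellv l k)) B k
  have h2 : S.rt (fun k => Setoid.ker (Y.cellv l k)) B k =
      S.rt (fun k => oth Y l (univ.erase i) k ⊓ Setoid.ker ((Y.co i).cellv l k)) B k := by
    unfold Sp.rt
    congr 2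
    ext ω ω'
    constructor
    · intro h
      have h0 : Y.cellv l k ω = Y.cellv l k ω' := h
      exact ⟨(oth_rel _ _ _ _ _ _).2 fun j _ => congrFun h0 j, (co_rel _ _ _ _ _ _).2 (congrFun h0 i)⟩
    · rintro ⟨a, b⟩
      show Y.cellv l k ω = Y.cellv l k ω'
      funext j
      by_cases hj : j = i
      · rw [hj]; exact (co_rel _ _ _ _ _ _).1 b
      · exact (oth_rel _ _ _ _ _ _).1 a j (Finset.mem_erase.2 ⟨hj, Finset.mem_univ j⟩)
  have h3 := rt_oth_le Y c l hcl B K k hK hwin (univ.erase i)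
  rw [Finset.card_erase_of_mem (Finset.mem_univ i), Finset.card_univ, Fintype.card_fin] at h3
  have he : 0 < e := i.pos
  have h4 : ((e - 1 : ℕ) : ℝ) = (e : ℝ) - 1 := by
    rw [Nat.cast_sub he, Nat.cast_one]
  rw [h4] at h3
  have h5 : 0 ≤ Real.logb 2 (K k + 2) / (S.F k).n :=
    div_nonneg (Real.logb_nonneg (by norm_num) (by linarith)) hn.le
  unfold rho at h3
  rw [h2, h1] at hent
  have h6 : ((e : ℝ) - 1) * ((l - c) + Real.logb 2 (K k + 2) / (S.F k).n) ≤
      ((e : ℝ) - 1) * (l - c) + e * (Real.logb 2 (K k + 2) / (S.F k).n) := by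
    rw [mul_add]
    refine add_le_add le_rfl (mul_le_mul_of_nonneg_right (by linarith) h5)
  linarith

/-! ### hybrid sums -/

/-- nodes in the coordinates before `j`, the point `y` in the others -/
def mix {e : ℕ} (D : ℕ) (o y : Fin e → ℝ) (r : ℝ) (j : ℕ) (ν : Fin e → Fin (D + 1)) : Fin e → ℝ :=
  fun i => if (i : ℕ) < j then o i + r * nod D (ν i) else y i

/-- hybrid sum -/
def hyb {e : ℕ} (D : ℕ) (Ψ : MvPolynomial (Fin e) ℝ) (o y : Fin e → ℝ) (r : ℝ) (j : ℕ) : ℝ :=
  ∑ ν : Fin e → Fin (D + 1), eval (mix D o y r j ν) Ψ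

theorem mix_upd {e : ℕ} (D : ℕ) (o y : Fin e → ℝ) (r : ℝ) (i : Fin e) (ν : Fin e → Fin (D + 1)) :
    mix D o y r (i + 1) ν = Function.update (mix D o y r i ν) i (o i + r * nod D (ν i)) := by
  funext j
  by_cases hj : j = i
  · subst hj
    rw [Function.update_self]
    unfold mix
    rw [if_pos (Nat.lt_succ_self _)]
  · rw [Function.update_of_ne hj]
    unfold mix
    have h1 : ((j : ℕ) < (i : ℕ) + 1) ↔ ((j : ℕ) < (i : ℕ)) := by
      have : (j : ℕ) ≠ (i : ℕ) := fun h => hj (Fin.ext h)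
      omega
    simp only [h1]

theorem mix_self {e : ℕ} (D : ℕ) (o y : Fin e → ℝ) (r : ℝ) (i : Fin e) (ν : Fin e → Fin (D + 1)) :
    Function.update (mix D o y r i ν) i (y i) = mix D o y r i ν := by
  funext j
  by_cases hj : j = i
  · subst hj
    rw [Function.update_self]
    unfold mix
    rw [if_neg (lt_irrefl _)]
  · rw [Function.update_of_ne hj]

/-- the polynomial in the coordinate `i` -/
def gmix {e : ℕ} (D : ℕ) (Ψ : MvPolynomial (Fin e) ℝ) (o y : Fin e → ℝ) (r : ℝ) (i : Fin e) : Polynomial ℝ :=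
  ∑ ν : Fin e → Fin (D + 1), lin (Function.update (mix D o y r i ν) i 0) (Pi.single i 1) Ψ

theorem gmix_eval {e : ℕ} (D : ℕ) (Ψ : MvPolynomial (Fin e) ℝ) (o y : Fin e → ℝ) (r : ℝ) (i : Fin e) (s : ℝ) :
    (gmix D Ψ o y r i).eval s = ∑ ν : Fin e → Fin (D + 1), eval (Function.update (mix D o y r i ν) i s) Ψ := by
  unfold gmix
  rw [Polynomial.eval_finsetSum]
  refine Finset.sum_congr rfl fun ν _ => ?_
  rw [eval_lin]
  have h1 : (fun k => Function.update (mix D o y r i ν) i 0 k + s * (Pi.single i 1 : Fin e → ℝ) k) =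
      Function.update (mix D o y r i ν) i s := by
    funext k
    by_cases hk : k = i
    · subst hk
      rw [Function.update_self, Function.update_self, Pi.single_eq_same]
      ring
    · rw [Function.update_of_ne hk, Function.update_of_ne hk, Pi.single_eq_of_ne hk]
      ring
  rw [h1]

theorem gmix_deg {e : ℕ} (D : ℕ) (Ψ : MvPolynomial (Fin e) ℝ) (hΨ : Ψ.totalDegree ≤ D) (o y : Fin e → ℝ) (r : ℝ)
    (i : Fin e) : (gmix D Ψ o y r i).natDegree ≤ D :=
  Polynomial.natDegree_sum_le_of_forall_le _ _ fun _ _ => (natDegree_lin _ _ _).trans hΨ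

/-- the next hybrid sum is at most the sum of the values at the nodes -/
theorem hyb_succ {e : ℕ} (D : ℕ) (Ψ : MvPolynomial (Fin e) ℝ) (hΨ : ∀ y, 0 ≤ eval y Ψ) (o y : Fin e → ℝ) (r : ℝ)
    (i : Fin e) (M : ℝ) (hM : ∀ μ : Fin (D + 1), (gmix D Ψ o y r i).eval (o i + r * nod D μ) ≤ M) :
    hyb D Ψ o y r (i + 1) ≤ (D + 1) * M := by
  have h1 : ∀ ν : Fin e → Fin (D + 1), eval (mix D o y r (i + 1) ν) Ψ ≤
      ∑ μ : Fin (D + 1), eval (Function.update (mix D o y r i ν) i (o i + r * nod D μ)) Ψ := by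
    intro ν
    rw [mix_upd]
    exact Finset.single_le_sum (f := fun μ : Fin (D + 1) =>
      eval (Function.update (mix D o y r i ν) i (o i + r * nod D μ)) Ψ) (fun _ _ => hΨ _) (Finset.mem_univ (ν i))
  unfold hyb
  refine (Finset.sum_le_sum fun ν _ => h1 ν).trans ?_
  rw [Finset.sum_comm]
  have h2 : ∀ μ ∈ (Finset.univ : Finset (Fin (D + 1))), ∑ ν : Fin e → Fin (D + 1),
      eval (Function.update (mix D o y r i ν) i (o i + r * nod D μ)) Ψ ≤ M := by
    intro μ _
    rw [← gmix_eval]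
    exact hM μ
  refine (Finset.sum_le_card_nsmul _ _ _ h2).trans (le_of_eq ?_)
  rw [nsmul_eq_mul, Finset.card_univ, Fintype.card_fin]
  push_cast
  ring

theorem gmix_self {e : ℕ} (D : ℕ) (Ψ : MvPolynomial (Fin e) ℝ) (o y : Fin e → ℝ) (r : ℝ) (i : Fin e) :
    (gmix D Ψ o y r i).eval (y i) = hyb D Ψ o y r i := by
  rw [gmix_eval]
  unfold hyb
  exact Finset.sum_congr rfl fun ν _ => by rw [mix_self]

theorem hyb_zero {e : ℕ} (D : ℕ) (Ψ : MvPolynomial (Fin e) ℝ) (o y : Fin e → ℝ) (r : ℝ) :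
    hyb D Ψ o y r 0 = nn e D * eval y Ψ := by
  unfold hyb
  have h1 : ∀ ν : Fin e → Fin (D + 1), mix D o y r 0 ν = y := by
    intro ν
    funext i
    unfold mix
    rw [if_neg (Nat.not_lt_zero _)]
  rw [Finset.sum_congr rfl (fun ν _ => by rw [h1 ν]), Finset.sum_const, nsmul_eq_mul, card_nodes]

theorem mix_last {e : ℕ} (D : ℕ) (o y : Fin e → ℝ) (r : ℝ) (ν : Fin e → Fin (D + 1)) :
    mix D o y r e ν = nodp D o r ν := by
  funext i
  unfold mix nodp
  rw [if_pos i.isLt]

theorem hyb_nonneg {e : ℕ} (D : ℕ) (Ψ : MvPolynomial (Fin e) ℝ) (hΨ : ∀ y, 0 ≤ eval y Ψ) (o y : Fin e → ℝ) (r : ℝ)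
    (j : ℕ) : 0 ≤ hyb D Ψ o y r j := Finset.sum_nonneg fun _ _ => hΨ _

theorem node_hyb {e : ℕ} (D : ℕ) (Ψ : MvPolynomial (Fin e) ℝ) (hΨ : ∀ y, 0 ≤ eval y Ψ) (o y : Fin e → ℝ) (r : ℝ)
    (ν : Fin e → Fin (D + 1)) : |eval (nodp D o r ν) Ψ| ≤ hyb D Ψ o y r e := by
  rw [abs_of_nonneg (hΨ _), ← mix_last D o y r ν]
  exact Finset.single_le_sum (f := fun ν : Fin e → Fin (D + 1) => eval (mix D o y r e ν) Ψ) (fun _ _ => hΨ _)
    (Finset.mem_univ ν)

/-- REMEZ ON CUBES -/
theorem cube_rem {e : ℕ} (Y : S.VV e) (c l : ℝ) (hcl : c < l) (B : ∀ k, Setoid (S.F k).Ω) (D : ℕ)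
    (Ψ : ∀ k, (S.F k).Ω → MvPolynomial (Fin e) ℝ)
    (hdeg : ∀ᶠ k in UF, ∀ ω, (S.F k).μ ω ≠ 0 → (Ψ k ω).totalDegree ≤ D)
    (hnn : ∀ᶠ k in UF, ∀ ω, (S.F k).μ ω ≠ 0 → ∀ y, 0 ≤ eval y (Ψ k ω))
    (K κ : ℕ → ℝ) (hK : S.Sub K) (hκ : S.Sub κ) (o : ∀ k, (S.F k).Ω → Fin e → ℝ)
    (ho : ∀ᶠ k in UF, ∀ ω ω', (S.F k).μ ω ≠ 0 → (S.F k).μ ω' ≠ 0 → B k ω' ω → (S.F k).Z ω' ω → o k ω' = o k ω)
    (ho2 : ∀ᶠ k in UF, ∀ ω, (S.F k).μ ω ≠ 0 → ∀ i, |Y.v k ω i - o k ω i| ≤ K k * S.dl c k)
    (hcomp : ∀ᶠ k in UF, ∀ ω ω', (S.F k).μ ω ≠ 0 → (S.F k).μ ω' ≠ 0 → B k ω' ω → (S.F k).Z ω' ω →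
      ∀ y y' : Fin e → ℝ, (∀ i, |y i - Y.v k ω i| ≤ 6 * ((K k + 1) * S.dl c k)) → (∀ i, |y' i - y i| ≤ S.dl l k) →
        eval y' (Ψ k ω') ≤ κ k * eval y (Ψ k ω))
    (hent : e * (l - c) ≤ ul (S.rt (fun k => Setoid.ker (Y.cellv l k)) B))
    (b : ℝ) (hb : 0 ≤ b) (L : ℕ → ℝ) (hL : S.Sub L) :
    ∃ K' : ℕ → ℝ, S.Sub K' ∧ Sp.Typ (fun k ω => ∀ y, (∀ i, |y i - Y.v k ω i| ≤ L k * S.dl (c - b) k) →
      eval y (Ψ k ω) ≤ K' k * 2 ^ (D * b * (S.F k).n) * eval (Y.v k ω) (Ψ k ω)) := by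
  classical
  -- windows
  have h2K : S.Sub (fun k => 2 * K k) := (S.Sub_const (by norm_num)).mul hK
  have hwin : ∀ᶠ k in UF, ∀ ω ω', (S.F k).μ ω ≠ 0 → (S.F k).μ ω' ≠ 0 → B k ω' ω → (S.F k).Z ω' ω →
      ∀ i, |Y.v k ω' i - Y.v k ω i| ≤ 2 * K k * S.dl c k := by
    filter_upwards [ho, ho2] with k h1 h2 ω ω' a a' b b' i
    have e1 := h2 ω a i
    have e2 := h2 ω' a' i
    rw [h1 ω ω' a a' b b'] at e2
    have e3 : Y.v k ω' i - Y.v k ω i = (Y.v k ω' i - o k ω i) - (Y.v k ω i - o k ω i) := by ring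
    rw [e3]
    refine (abs_sub _ _).trans ?_
    linarith
  -- entropy defects
  set η : ℕ → ℝ := fun k => max (e * (l - c) - S.rt (fun k => Setoid.ker (Y.cellv l k)) B k) 0 with hη
  have hUB : UB (S.rt (fun k => Setoid.ker (Y.cellv l k)) B) := Sp.UB_rt (Y.bdd l).toInf B
  have hη0 : Tendsto η UF (𝓝 0) := by
    have h1 : Tendsto (fun k => max (e * (l - c) - S.rt (fun k => Setoid.ker (Y.cellv l k)) B k) 0) UF
        (𝓝 (max (e * (l - c) - ul (S.rt (fun k => Setoid.ker (Y.cellv l k)) B)) 0)) :=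
      (tendsto_const_nhds.sub (ul_tendsto hUB)).max tendsto_const_nhds
    rw [max_eq_right (by linarith)] at h1
    exact h1
  set θ : ℕ → ℝ := fun k => η k + e * (Real.logb 2 (2 * K k + 2) / (S.F k).n) with hθ
  have hθ0 : Tendsto θ UF (𝓝 0) := by
    have h1 := hη0.add (h2K.2.const_mul (e : ℝ))
    rw [mul_zero, add_zero] at h1
    exact h1
  have hrt : ∀ i : Fin e, ∀ᶠ k in UF, l - c - θ k ≤
      S.rt (fun k => Setoid.ker ((Y.co i).cellv l k)) (fun k => oth Y l (univ.erase i) k ⊓ B k) k := by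
    intro i
    filter_upwards [hwin, h2K.1] with k h1 h2
    exact rt_last Y c l hcl.le B (fun k => 2 * K k) k h2 h1 (η k) (by
      have := le_max_left (e * (l - c) - S.rt (fun k => Setoid.ker (Y.cellv l k)) B k) 0
      simp only [hη]
      linarith) i
  -- the induction
  have hstep : ∀ j : ℕ, j ≤ e → ∃ K' : ℕ → ℝ, S.Sub K' ∧ Sp.Typ (fun k ω =>
      hyb D (Ψ k ω) (o k ω) (Y.v k ω) (S.dl c k) j ≤ K' k * eval (Y.v k ω) (Ψ k ω)) := by
    intro j
    induction j with
    | zero =>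
      intro _
      refine ⟨fun _ => nn e D, S.Sub_const (zero_le_one.trans (nn_one e D)), ?_⟩
      refine typ_mono Sp.Typ_true (Eventually.of_forall fun k ω _ _ => ?_)
      exact (hyb_zero D (Ψ k ω) (o k ω) (Y.v k ω) (S.dl c k)).le
    | succ j ih =>
      intro hj
      obtain ⟨K1, hK1, hT1⟩ := ih (by omega)
      set i : Fin e := ⟨j, by omega⟩ with hi
      obtain ⟨K2, hK2, hT2⟩ := remez_EC (Y.co i) c l hcl (fun k => oth Y l (univ.erase i) k ⊓ B k) D
        (fun k ω => gmix D (Ψ k ω) (o k ω) (Y.v k ω) (S.dl c k) i) (fun k => 2 * K k) κ h2K hκ θ hθ0 (hrt i)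
        (by
          filter_upwards [hdeg] with k h1 ω hω
          exact gmix_deg D _ (h1 ω hω) _ _ _ _)
        (by
          filter_upwards [hwin] with k h1 ω ω' a a' b b'
          exact h1 ω ω' a a' b.2 b' i)
        (by
          filter_upwards [ho, ho2, hcomp, hnn, hK.1] with k h1 h2 h3 h4 h5 ω ω' a a' b b' s hs
          have hc := S.dl_pos c k
          have hll := S.dl_pos l k
          rw [gmix_eval, gmix_eval, abs_of_nonneg (Finset.sum_nonneg fun ν _ => h4 ω' a' _),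
            abs_of_nonneg (Finset.sum_nonneg fun ν _ => h4 ω a _), Finset.mul_sum]
          refine Finset.sum_le_sum fun ν _ => ?_
          apply h3 ω ω' a a' b.2 b'
          · intro i'
            by_cases hi' : i' = i
            · subst hi'
              rw [Function.update_self]
              refine hs.trans ?_
              have : 0 ≤ K k * S.dl c k := by positivity
              nlinarith
            · rw [Function.update_of_ne hi']
              unfold mix
              split_ifs with hlt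
              · have e1 := h2 ω a i'
                have e2 : o k ω i' + S.dl c k * nod D (ν i') - Y.v k ω i' =
                    S.dl c k * nod D (ν i') - (Y.v k ω i' - o k ω i') := by ring
                rw [e2]
                refine (abs_sub _ _).trans ?_
                rw [abs_mul, abs_of_pos hc, abs_of_nonneg (nod_nonneg D _)]
                have e3 : S.dl c k * nod D (ν i') ≤ S.dl c k * 1 :=
                  mul_le_mul_of_nonneg_left (nod_le D _ (Nat.le_of_lt_succ (ν i').2)) hc.le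
                have : 0 ≤ K k * S.dl c k := by positivity
                nlinarith
              · rw [sub_self, abs_zero]
                positivity
          · intro i'
            by_cases hi' : i' = i
            · subst hi'
              rw [Function.update_self, Function.update_self, sub_self, abs_zero]
              exact hll.le
            · rw [Function.update_of_ne hi', Function.update_of_ne hi']
              unfold mix
              rw [h1 ω ω' a a' b.2 b']
              split_ifs with hlt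
              · rw [sub_self, abs_zero]
                exact hll.le
              · have e1 := (oth_rel _ _ _ _ _ _).1 b.1 i' (Finset.mem_erase.2 ⟨hi', Finset.mem_univ i'⟩)
                exact abs_sub_le_of_floor_eq hll e1)
      refine ⟨fun k => (D + 1) * (K2 k * K1 k), (S.Sub_const (by positivity)).mul (hK2.mul hK1), ?_⟩
      refine typ_mono (typ_and hT1 hT2) ?_
      filter_upwards [hnn, ho2, hK.1, hK2.1] with k h1 h2 h3 h4 ω hω hE
      have hc := S.dl_pos c k
      have e1 : hyb D (Ψ k ω) (o k ω) (Y.v k ω) (S.dl c k) ((i : ℕ) + 1) ≤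
          (D + 1) * (K2 k * hyb D (Ψ k ω) (o k ω) (Y.v k ω) (S.dl c k) i) := by
        apply hyb_succ D (Ψ k ω) (h1 ω hω)
        intro μ
        have e2 := hE.2 (o k ω i + S.dl c k * nod D μ) (by
          have e3 := h2 ω hω i
          have e4 : o k ω i + S.dl c k * nod D μ - (Y.co i).v k ω 0 =
              S.dl c k * nod D μ - (Y.v k ω i - o k ω i) := by
            show _ - Y.v k ω i = _
            ring
          rw [e4]
          refine (abs_sub _ _).trans ?_
          rw [abs_mul, abs_of_pos hc, abs_of_nonneg (nod_nonneg D _)]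
          have e5 : S.dl c k * nod D μ ≤ S.dl c k * 1 :=
            mul_le_mul_of_nonneg_left (nod_le D _ (Nat.le_of_lt_succ μ.2)) hc.le
          have : 0 ≤ K k * S.dl c k := by positivity
          nlinarith)
        have e6 : (gmix D (Ψ k ω) (o k ω) (Y.v k ω) (S.dl c k) i).eval ((Y.co i).v k ω 0) =
            hyb D (Ψ k ω) (o k ω) (Y.v k ω) (S.dl c k) i := gmix_self D _ _ _ _ i
        rw [e6, abs_of_nonneg (hyb_nonneg D _ (h1 ω hω) _ _ _ _)] at e2
        exact (le_abs_self _).trans e2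
      refine e1.trans ?_
      have e7 : (D + 1 : ℝ) * (K2 k * hyb D (Ψ k ω) (o k ω) (Y.v k ω) (S.dl c k) i) ≤
          (D + 1) * (K2 k * (K1 k * eval (Y.v k ω) (Ψ k ω))) :=
        mul_le_mul_of_nonneg_left (mul_le_mul_of_nonneg_left hE.1 h4) (by positivity)
      refine e7.trans (le_of_eq ?_)
      ring
  obtain ⟨K1, hK1, hT1⟩ := hstep e le_rfl
  have hKL : S.Sub (fun k => K k + L k + 1) := (hK.add hL).add (S.Sub_const zero_le_one)
  have hcu := Cu_one D
  have hcm := Cm_one e D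
  refine ⟨fun k => Cu D * (K k + L k + 1) ^ D * (Cm e D * K1 k), ?_, ?_⟩
  · exact ((S.Sub_const (by linarith)).mul (Sub_powN hKL D)).mul ((S.Sub_const (by linarith)).mul hK1)
  · refine typ_mono hT1 ?_
    filter_upwards [hdeg, hnn, ho2, hK.1, hK1.1, hL.1] with k h1 h2 h3 h4 h5 h6 ω hω hE y hy
    have hc := S.dl_pos c k
    have hn := (S.F k).pos
    have hp : (1 : ℝ) ≤ 2 ^ (b * (S.F k).n) := Real.one_le_rpow (by norm_num) (by positivity)
    have hdl : S.dl (c - b) k = 2 ^ (b * (S.F k).n) * S.dl c k := by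
      unfold Sp.dl
      rw [← Real.rpow_add (by norm_num : (0 : ℝ) < 2)]
      congr 1; ring
    have h7 := cell_growth D (Ψ k ω) (h1 ω hω) (o k ω) (S.dl c k) ((K k + L k + 1) * 2 ^ (b * (S.F k).n))
      (hyb D (Ψ k ω) (o k ω) (Y.v k ω) (S.dl c k) e) hc (by nlinarith)
      (fun ν => node_hyb D _ (h2 ω hω) _ _ _ ν) y (by
        intro i
        have e1 := hy i
        rw [hdl] at e1
        have e2 := h3 ω hω i
        have e3 : y i - o k ω i = (y i - Y.v k ω i) + (Y.v k ω i - o k ω i) := by ring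
        rw [e3]
        refine (abs_add_le _ _).trans ?_
        have e4 : K k * S.dl c k ≤ K k * (2 ^ (b * (S.F k).n) * S.dl c k) := by
          apply mul_le_mul_of_nonneg_left _ h4
          nlinarith
        have e5 : 0 ≤ 2 ^ (b * (S.F k).n) * S.dl c k := by positivity
        calc _ ≤ L k * (2 ^ (b * (S.F k).n) * S.dl c k) + K k * (2 ^ (b * (S.F k).n) * S.dl c k) := by linarith
          _ ≤ (K k + L k + 1) * (2 ^ (b * (S.F k).n) * S.dl c k) := by nlinarith
          _ = _ := by ring)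
    refine ((le_abs_self _).trans h7).trans ?_
    have e4 : ((2 : ℝ) ^ (b * (S.F k).n)) ^ D = 2 ^ (D * b * (S.F k).n) := by
      rw [← Real.rpow_natCast, ← Real.rpow_mul (by norm_num)]
      congr 1; ring
    rw [mul_pow, e4]
    have e5 : Cm e D * hyb D (Ψ k ω) (o k ω) (Y.v k ω) (S.dl c k) e ≤
        Cm e D * (K1 k * eval (Y.v k ω) (Ψ k ω)) := mul_le_mul_of_nonneg_left hE (by linarith)
    have e6 : 0 ≤ Cu D * ((K k + L k + 1) ^ D * 2 ^ (D * b * (S.F k).n)) := by positivity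
    refine (mul_le_mul_of_nonneg_left e5 e6).trans (le_of_eq ?_)
    ring

end

end Pool.Agent.Helper66.MT
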